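import Pool.Agent.H54Sharp.Stmt

/-!
# What the induction over the bands has to give (input of the last step of `BandsRow`, helper62)
-/

set_option autoImplicit false

namespace Pool.Agent.Helper62.AS

open Finset Filter Topology Pool.Agent.H54Sharp

/-- ideal levels (output of `levels82`) -/
structure Levels (J : ℕ) (L₀ R₀ : ℝ) (Lz Rz : ℕ → ℝ) : Prop where
  L0 : Lz 0 = L₀
  R0 : Rz 0 = R₀
  T_eq : ∀ g ≤ J, Real.negMulLog (Lz g) = Real.negMulLog (Rz g)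
  diff : ∀ g ≤ J, Rz g - Lz g = (R₀ - L₀) * (1 - g / J)
  mono : ∀ g < J, Lz g < Lz (g + 1)
  anti : ∀ g < J, Rz (g + 1) < Rz g
  left : ∀ g < J, Lz g < Real.exp (-1)
  right : ∀ g < J, Real.exp (-1) < Rz g

/-- the tuning equation of one band -/
def TunedAt (m q r : ℕ) (L R : ℕ → ℝ) (y : ℕ → ℝ) (g : ℕ) : Prop :=
  ((m * q : ℕ) : ℝ) * ((Fl (L (g + 1)) - Fl (L g)) + (Fl (R g) - Fl (R (g + 1)))) +
    r * (Fl (Xg L R (g + 1)) - Fl (Xg L R g)) = (-((m * q + r : ℕ) : ℝ) + y g) * Mg L R g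

/-- the induction over the bands -/
def Ind : Prop :=
  ∀ L₀ R₀ : ℝ, 0 < L₀ → L₀ < Real.exp (-1) → Real.exp (-1) < R₀ → R₀ < 1 →
    Real.negMulLog R₀ = Real.negMulLog L₀ →
    ∀ J : ℕ, 1 ≤ J → ∀ Lz Rz : ℕ → ℝ, Levels J L₀ R₀ Lz Rz →
    ∀ q r : ℕ, 1 ≤ q → r < q → ∀ y : ℕ → ℝ, ∀ C l δ : ℝ, 0 < C → 0 < l → 0 < δ →
    ∀ᶠ m : ℕ in atTop, ∀ R' : ℝ, R₀ ≤ R' → R' ≤ R₀ + C / ((m * q + r : ℕ) : ℝ) → R' < 1 →
      ((m * q + r : ℕ) : ℝ) * (Real.negMulLog L₀ - Real.negMulLog R') ≤ l →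
      ∃ (L R : ℕ → ℝ) (a : ℕ → ℕ), Bands m J L R a ∧ L 0 = L₀ ∧ R 0 = R' ∧
        (∀ g, g + 1 < J → TunedAt m q r L R y g) ∧
        ∀ g < J, |L g - Lz g| ≤ δ ∧ |R g - Rz g| ≤ δ

end Pool.Agent.Helper62.AS
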