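import Pool.Agent.Helper18.Sharp.Int

/-!
# The Riemann sum over the ideal levels (helper62)
-/

set_option autoImplicit false

namespace Pool.Agent.Helper62.AS

open MeasureTheory Finset Set Real Pool.Agent.Helper18.Sharp

theorem T_mono {p q : ℝ} (hp : 0 < p) (hpq : p ≤ q) (hq : q ≤ exp (-1)) :
    negMulLog p ≤ negMulLog q := by
  have hq0 : 0 < q := hp.trans_le hpq
  have h1 : Real.log q ≤ -1 := by
    rw [← Real.log_exp (-1)]
    exact Real.log_le_log hq0 hq
  have h2 := Real.log_le_sub_one_of_pos (div_pos hq0 hp)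
  rw [Real.log_div hq0.ne' hp.ne'] at h2
  have h3 : p * (Real.log q - Real.log p) ≤ q - p := by
    have := mul_le_mul_of_nonneg_left h2 hp.le
    rw [mul_sub p (q / p) 1, mul_div_cancel₀ _ hp.ne'] at this
    linarith
  unfold negMulLog
  nlinarith

theorem T_anti {p q : ℝ} (hp : exp (-1) ≤ p) (hpq : p ≤ q) :
    negMulLog q ≤ negMulLog p := by
  have hp0 : 0 < p := (exp_pos _).trans_le hp
  have hq0 : 0 < q := hp0.trans_le hpq
  have h1 : -1 ≤ Real.log p := by
    rw [← Real.log_exp (-1)]
    exact Real.log_le_log (exp_pos _) hp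
  have h2 := Real.log_le_sub_one_of_pos (div_pos hp0 hq0)
  rw [Real.log_div hp0.ne' hq0.ne'] at h2
  have h3 : q * (Real.log p - Real.log q) ≤ p - q := by
    have := mul_le_mul_of_nonneg_left h2 hq0.le
    rw [mul_sub q (p / q) 1, mul_div_cancel₀ _ hq0.ne'] at this
    linarith
  unfold negMulLog
  nlinarith

theorem T_pos {p : ℝ} (hp : 0 < p) (hp1 : p < 1) : 0 < negMulLog p := by
  unfold negMulLog
  have := Real.log_neg hp hp1
  nlinarith

theorem lT_eq (p : ℝ) : lT p = -Real.log (negMulLog p) := by
  unfold lT negMulLog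
  ring_nf

theorem T_le_exp {p : ℝ} (hp : 0 < p) : negMulLog p ≤ exp (-1) := by
  have h0 : negMulLog (exp (-1)) = exp (-1) := by
    unfold negMulLog
    rw [Real.log_exp]
    ring
  rcases le_total p (exp (-1)) with h | h
  · have := T_mono hp h le_rfl
    rwa [h0] at this
  · have := T_anti le_rfl h
    rwa [h0] at this

theorem one_le_lT {p : ℝ} (hp : 0 < p) (hp1 : p < 1) : 1 ≤ lT p := by
  rw [lT_eq]
  have h := Real.log_le_log (T_pos hp hp1) (T_le_exp hp)
  rw [Real.log_exp] at h
  linarith

theorem lT_anti {p q : ℝ} (hp : 0 < p) (hpq : p ≤ q) (hq : q ≤ exp (-1)) : lT q ≤ lT p := by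
  rw [lT_eq, lT_eq]
  have hp1 : p < 1 := by
    have : exp (-1) < 1 := by
      rw [Real.exp_lt_one_iff]
      norm_num
    linarith
  have := Real.log_le_log (T_pos hp hp1) (T_mono hp hpq hq)
  linarith

theorem lT_mono {p q : ℝ} (hp : exp (-1) ≤ p) (hpq : p ≤ q) (hq : q < 1) : lT p ≤ lT q := by
  rw [lT_eq, lT_eq]
  have hq0 : 0 < q := ((exp_pos _).trans_le hp).trans_le hpq
  have := Real.log_le_log (T_pos hq0 hq) (T_anti hp hpq)
  linarith

theorem ii {a b : ℝ} (ha : 0 ≤ a) (hb : b ≤ 1) (hab : a ≤ b) :
    IntervalIntegrable lT volume a b :=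
  intervalIntegrable_lT.mono_set (by
    rw [Set.uIcc_of_le hab, Set.uIcc_of_le zero_le_one]
    exact Icc_subset_Icc ha hb)

/-- one band -/
theorem band_int {a b c : ℝ} (ha : 0 < a) (hab : a ≤ b) (hb : b ≤ 1)
    (h : ∀ p, a ≤ p → p < b → c ≤ lT p) : c * (b - a) ≤ ∫ p in a..b, lT p := by
  have h1 : ∫ _ in a..b, c = c * (b - a) := by
    rw [intervalIntegral.integral_const, smul_eq_mul]
    ring
  rw [← h1]
  apply intervalIntegral.integral_mono_on_of_le_Ioo hab intervalIntegrable_const
    (ii ha.le hb hab)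
  intro p hp
  exact h p hp.1.le hp.2

theorem riem {L0 R0 : ℝ} (h0 : 0 < L0) (hR : R0 < 1) {J : ℕ} (hJ : 1 ≤ J) {Lz Rz : ℕ → ℝ}
    (hL0 : Lz 0 = L0) (hR0 : Rz 0 = R0) (hT : ∀ g < J, negMulLog (Lz g) = negMulLog (Rz g))
    (hD : ∀ g ≤ J, Rz g - Lz g = (R0 - L0) * (1 - g / J))
    (hmono : ∀ g < J, Lz g ≤ Lz (g + 1)) (hanti : ∀ g < J, Rz (g + 1) ≤ Rz g)
    (hl : ∀ g < J, Lz g ≤ exp (-1)) (hr : ∀ g < J, exp (-1) ≤ Rz g) :
    (R0 - L0) / J * ∑ g ∈ Finset.range J, lT (Lz g) ≤
      1 + eulerMascheroniConstant + (R0 - L0) / J * lT L0 := by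
  have hJ0 : (0 : ℝ) < J := by exact_mod_cast hJ
  -- bounds on the levels
  have hLge : ∀ g ≤ J, L0 ≤ Lz g := by
    intro g
    induction g with
    | zero => intro _; rw [hL0]
    | succ g ih => exact fun hg => (ih (by omega)).trans (hmono g (by omega))
  have hRle : ∀ g ≤ J, Rz g ≤ R0 := by
    intro g
    induction g with
    | zero => intro _; rw [hR0]
    | succ g ih => exact fun hg => (hanti g (by omega)).trans (ih (by omega))
  have hkey : ∀ g, g < J → (R0 - L0) / J * ∑ h ∈ Finset.range g, lT (Lz (h + 1)) ≤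
      (∫ p in L0..(Lz g), lT p) + ∫ p in (Rz g)..R0, lT p := by
    intro g
    induction g with
    | zero => intro _; simp [hL0, hR0]
    | succ g ih =>
      intro hg
      have ih' := ih (by omega)
      rw [Finset.sum_range_succ, mul_add]
      have e1 : (∫ p in L0..(Lz (g + 1)), lT p) =
          (∫ p in L0..(Lz g), lT p) + ∫ p in (Lz g)..(Lz (g + 1)), lT p := by
        rw [intervalIntegral.integral_add_adjacent_intervals]
        · apply ii h0.le _ (hLge g (by omega))
          have := hl g (by omega)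
          have h2 : exp (-1) < 1 := by
            rw [Real.exp_lt_one_iff]
            norm_num
          linarith
        · apply ii (h0.le.trans (hLge g (by omega))) _ (hmono g (by omega))
          have := hl (g + 1) hg
          have h2 : exp (-1) < 1 := by
            rw [Real.exp_lt_one_iff]
            norm_num
          linarith
      have e2 : (∫ p in (Rz (g + 1))..R0, lT p) =
          (∫ p in (Rz (g + 1))..(Rz g), lT p) + ∫ p in (Rz g)..R0, lT p := by
        rw [intervalIntegral.integral_add_adjacent_intervals]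
        · exact ii ((exp_pos _).le.trans (hr (g + 1) hg)) ((hRle g (by omega)).trans hR.le)
            (hanti g (by omega))
        · exact ii ((exp_pos _).le.trans (hr g (by omega))) hR.le (hRle g (by omega))
      have b1 : lT (Lz (g + 1)) * (Lz (g + 1) - Lz g) ≤ ∫ p in (Lz g)..(Lz (g + 1)), lT p := by
        apply band_int (h0.trans_le (hLge g (by omega))) (hmono g (by omega))
        · have := hl (g + 1) hg
          have h2 : exp (-1) < 1 := by
            rw [Real.exp_lt_one_iff]
            norm_num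
          linarith
        · intro p hp1 hp2
          exact lT_anti ((h0.trans_le (hLge g (by omega))).trans_le hp1) hp2.le (hl (g + 1) hg)
      have b2 : lT (Lz (g + 1)) * (Rz g - Rz (g + 1)) ≤
          ∫ p in (Rz (g + 1))..(Rz g), lT p := by
        have e : lT (Lz (g + 1)) = lT (Rz (g + 1)) := by
          rw [lT_eq, lT_eq, hT (g + 1) hg]
        rw [e]
        apply band_int ((exp_pos _).trans_le (hr (g + 1) hg)) (hanti g (by omega))
          ((hRle g (by omega)).trans hR.le)
        intro p hp1 hp2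
        exact lT_mono (hr (g + 1) hg) hp1 (hp2.trans_le ((hRle g (by omega)).trans hR.le))
      have hM : (Lz (g + 1) - Lz g) + (Rz g - Rz (g + 1)) = (R0 - L0) / J := by
        have d1 := hD g (by omega)
        have d2 := hD (g + 1) (by omega)
        push_cast at d2
        have : (R0 - L0) / J = (R0 - L0) * (1 - (g : ℝ) / J) -
            (R0 - L0) * (1 - ((g : ℝ) + 1) / J) := by
          field_simp
          ring
        rw [this]
        linarith
      have b3 : (R0 - L0) / J * lT (Lz (g + 1)) ≤
          (∫ p in (Lz g)..(Lz (g + 1)), lT p) + ∫ p in (Rz (g + 1))..(Rz g), lT p := by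
        rw [← hM]
        calc _ = lT (Lz (g + 1)) * (Lz (g + 1) - Lz g) + lT (Lz (g + 1)) * (Rz g - Rz (g + 1)) := by
              ring
          _ ≤ _ := add_le_add b1 b2
      rw [e1, e2]
      linarith
  -- the total
  obtain ⟨J', rfl⟩ : ∃ J', J = J' + 1 := ⟨J - 1, by omega⟩
  have hk := hkey J' (by omega)
  rw [Finset.sum_range_succ', hL0, mul_add]
  have hlt1 : exp (-1) < 1 := by
    rw [Real.exp_lt_one_iff]
    norm_num
  have htot : (∫ p in L0..(Lz J'), lT p) + (∫ p in (Rz J')..R0, lT p) ≤
      1 + eulerMascheroniConstant := by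
    rw [← int_lT]
    have a1 := hLge J' (by omega)
    have a2 := hRle J' (by omega)
    have a3 := hl J' (by omega)
    have a4 := hr J' (by omega)
    have s1 : (∫ p in (0:ℝ)..1, lT p) = (∫ p in (0:ℝ)..L0, lT p) + (∫ p in L0..(Lz J'), lT p) +
        (∫ p in (Lz J')..(Rz J'), lT p) + (∫ p in (Rz J')..R0, lT p) + ∫ p in R0..(1:ℝ), lT p := by
      rw [intervalIntegral.integral_add_adjacent_intervals,
        intervalIntegral.integral_add_adjacent_intervals,
        intervalIntegral.integral_add_adjacent_intervals,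
        intervalIntegral.integral_add_adjacent_intervals]
      all_goals first
        | exact ii le_rfl (by linarith) (by linarith)
        | exact ii (by linarith) (by linarith) (by linarith)
    have nn : ∀ a b : ℝ, 0 ≤ a → a ≤ b → b ≤ 1 → 0 ≤ ∫ p in a..b, lT p := by
      intro a b ha hab hb
      have hz : (∫ _ in a..b, (0:ℝ)) = 0 := by simp
      rw [← hz]
      apply intervalIntegral.integral_mono_on_of_le_Ioo hab intervalIntegrable_const (ii ha hb hab)
      intro p hp
      have := one_le_lT (ha.trans_lt hp.1) (hp.2.trans_le hb)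
      linarith
    have n1 := nn 0 L0 le_rfl h0.le (by linarith)
    have n2 := nn (Lz J') (Rz J') (by linarith) (by linarith) (by linarith)
    have n3 := nn R0 1 (by linarith) hR.le le_rfl
    rw [s1]
    linarith
  linarith

end Pool.Agent.Helper62.AS
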