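import Pool.Agent.Helper62.AS.Path
import Pool.Agent.H54Sharp.Stmt

/-!
# Rows U1 and U2 (helper62)
-/

set_option autoImplicit false

namespace Pool.Agent.Helper62.AS

open MeasureTheory Finset Pool.Agent.Helper43.Copula

theorem box_eq' {n : ℕ} (b : Fin n → ℝ) : Set.Icc (0 : Fin n → ℝ) b = box b := by
  rw [box_eq]
  rfl

/-- (U1) -/
theorem dominanceRow : Pool.Agent.H54Sharp.Dominance := by
  intro n hn I _ lam b hlam hb0 hb1 hsum hdom
  have h := dominance hn lam b hlam hb0 hb1 hsum (fun k t h0 h1 => by
    have := hdom k t h0 h1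
    simpa only [mul_ite, mul_one, mul_zero] using this)
  simpa only [box_eq'] using h

/-- (U2) -/
theorem pathRow : Pool.Agent.H54Sharp.PathLemma := by
  intro n S b V hb hV hV0
  have hnn : ∀ S' : ℕ, 0 ≤ V * (1 + ∑ s ∈ range S', ∑ k,
      max 0 (Real.log (b (s + 1) k) - Real.log (b s k))) := fun S' => by
    have : 0 ≤ ∑ s ∈ range S', ∑ k, max 0 (Real.log (b (s + 1) k) - Real.log (b s k)) :=
      sum_nonneg fun s _ => sum_nonneg fun k _ => le_max_left _ _
    positivity
  rcases S with _ | S
  · simpa using hV0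
  · have h := volume_path b V S (fun s hs => hb s (by omega)) (fun s hs => hV s (by omega))
    simp only [box_eq', Nat.add_sub_cancel]
    exact ENNReal.toReal_le_of_le_ofReal (hnn S) h

end Pool.Agent.Helper62.AS
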