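import Pool.Agent.Helper62.AS.FinRow
import Pool.Agent.H80Band.Ind80

/-!
# Row U5: `BandsRow` (helper62, helper80, helper82, helper18)
-/

set_option autoImplicit false

namespace Pool.Agent.Helper62.AS

theorem bandsRow : Pool.Agent.H54Sharp.BandsRow :=
  bandsRow_of_ind Pool.Agent.H80Band.ind80

end Pool.Agent.Helper62.AS
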