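import Pool.Agent.Helper45.CR.Dom

/-!
# General dominance with the volume of the union (helper62)
-/

set_option autoImplicit false

namespace Pool.Agent.Helper62.AS

open MeasureTheory Finset Pool.Agent.Helper43.Copula Pool.Agent.Helper3.Cop
open Pool.Agent.Helper45.CR (tile_key)

variable {n : ℕ}

section
variable {I : Type*} [Fintype I] (lam : I → ℝ) (b : I → Fin n → ℝ)

/-- sorting key of an index for the coordinate `k` -/
noncomputable def key (k : Fin n) (i : I) : ℝ ×ₗ Fin (Fintype.card I) :=
  toLex (b i k, Fintype.equivFin I i)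

theorem key_inj (k : Fin n) : Function.Injective (key b k) := by
  intro α β h
  unfold key at h
  have h1 := congrArg (fun z => (ofLex z).2) h
  exact (Fintype.equivFin I).injective h1

open Classical in
/-- start of the interval of an index -/
noncomputable def start (k : Fin n) (i : I) : ℝ :=
  ∑ j : I with key b k j < key b k i, lam j

/-- distribution function of the uniform distribution on the interval, reflected -/
noncomputable def G (k : Fin n) (i : I) (x : ℝ) : ℝ :=
  1 - clamp (((1 - x) - start lam b k i) / lam i)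

theorem G_nonneg (k : Fin n) (i : I) (x : ℝ) : 0 ≤ G lam b k i x := by
  have := clamp_le_one (((1 - x) - start lam b k i) / lam i)
  unfold G
  linarith

theorem G_le_one (k : Fin n) (i : I) (x : ℝ) : G lam b k i x ≤ 1 := by
  have := clamp_nonneg (((1 - x) - start lam b k i) / lam i)
  unfold G
  linarith

theorem G_mono (hlam : ∀ i, 0 < lam i) (k : Fin n) (i : I) {x y : ℝ} (h : x ≤ y) :
    G lam b k i x ≤ G lam b k i y := by
  unfold G
  have h1 : ((1 - y) - start lam b k i) / lam i ≤ ((1 - x) - start lam b k i) / lam i :=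
    div_le_div_of_nonneg_right (by linarith) (hlam _).le
  have := clamp_mono h1
  linarith

theorem start_nonneg (hlam : ∀ i, 0 < lam i) (k : Fin n) (i : I) : 0 ≤ start lam b k i :=
  sum_nonneg fun _ _ => (hlam _).le

theorem start_add_le (hlam : ∀ i, 0 < lam i) (k : Fin n) (i : I) :
    start lam b k i + lam i ≤ ∑ j, if b j k ≤ b i k then lam j else 0 := by
  classical
  rw [← sum_filter]
  unfold start
  have hα : i ∉ (univ.filter fun j : I => key b k j < key b k i) := by simp
  have h2 : insert i (univ.filter fun j : I => key b k j < key b k i) ⊆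
      univ.filter fun j : I => b j k ≤ b i k := by
    intro β hβ
    rw [mem_insert, mem_filter] at hβ
    rw [mem_filter]
    refine ⟨mem_univ _, ?_⟩
    rcases hβ with rfl | ⟨_, h⟩
    · exact le_rfl
    · unfold key at h
      rw [Prod.Lex.toLex_lt_toLex] at h
      rcases h with h | h
      · exact h.le
      · exact h.1.le
  calc _ = ∑ j ∈ insert i (univ.filter fun j : I => key b k j < key b k i), lam j := by
        rw [sum_insert hα, add_comm]
    _ ≤ _ := sum_le_sum_of_subset_of_nonneg h2 fun β _ _ => (hlam _).le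

theorem lam_G (hlam : ∀ i, 0 < lam i) (k : Fin n) (i : I) (x : ℝ) :
    lam i * G lam b k i x = lam i - max 0 (min (lam i) ((1 - x) - start lam b k i)) := by
  have h0 := hlam i
  unfold G clamp
  rw [mul_sub, mul_one]
  congr 1
  rw [mul_max_of_nonneg _ _ h0.le, mul_min_of_nonneg _ _ h0.le, mul_zero, mul_one]
  congr 2
  field_simp

theorem sum_lam_G (hlam : ∀ i, 0 < lam i) (hsum : ∑ i, lam i = 1) (k : Fin n) {x : ℝ}
    (_hx0 : 0 ≤ x) (hx1 : x ≤ 1) : ∑ i, lam i * G lam b k i x = x := by
  classical
  have h1 := tile_key (key b k) (key_inj b k) lam (fun α => (hlam _).le) (1 - x) (by linarith)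
  rw [sum_congr rfl fun α _ => lam_G lam b hlam k α x, sum_sub_distrib, hsum]
  have h3 : ∑ i, max 0 (min (lam i) ((1 - x) - start lam b k i)) = 1 - x := by
    rw [hsum, min_eq_left (by linarith)] at h1
    rw [← h1]
    apply sum_congr rfl
    intro α _
    unfold start
    congr 4
  rw [h3]
  ring

theorem boxVolume_smul (G' : (Fin n → ℝ) → ℝ) (c : ℝ) (u v : Fin n → ℝ) :
    boxVolume (fun x => c * G' x) u v = c * boxVolume G' u v := by
  unfold boxVolume
  rw [mul_sum]
  apply sum_congr rfl
  intro s _
  ring

/-- the copula -/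
noncomputable def dc (x : Fin n → ℝ) : ℝ :=
  1 * ∑ i : I, lam i * ∏ k, G lam b k i (x k)

theorem isCopula_dc (hlam : ∀ i, 0 < lam i) (hsum : ∑ i, lam i = 1)
    (hend : ∀ k i, start lam b k i + lam i ≤ 1) :
    IsCopula n (dc lam b) where
  range := by
    intro x hx
    have h0 : ∀ i : I, 0 ≤ ∏ k, G lam b k i (x k) := fun p =>
      prod_nonneg fun k _ => G_nonneg _ _ _ _ _
    have h1 : ∀ i : I, ∏ k, G lam b k i (x k) ≤ 1 := fun p =>
      prod_le_one (fun k _ => G_nonneg _ _ _ _ _) fun k _ => G_le_one _ _ _ _ _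
    unfold dc
    rw [one_mul]
    constructor
    · exact sum_nonneg fun p _ => mul_nonneg (hlam _).le (h0 p)
    · calc ∑ i : I, lam i * ∏ k, G lam b k i (x k) ≤ ∑ i : I, lam i :=
            sum_le_sum fun p _ => by
            have := mul_le_mul_of_nonneg_left (h1 p) (hlam p).le
            linarith
        _ = 1 := hsum
  grounded := by
    rintro x - ⟨k, hk⟩
    unfold dc
    rw [one_mul, sum_eq_zero]
    intro p _
    have h1 : G lam b k p (x k) = 0 := by
      unfold G
      rw [hk, clamp_of_one_le, sub_self]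
      rw [le_div_iff₀ (hlam _)]
      have := hend k p
      linarith
    rw [prod_eq_zero (mem_univ k) h1, mul_zero]
  margin := by
    intro x hx k hk
    have h1 : ∀ p : I, ∏ l, G lam b l p (x l) = G lam b k p (x k) := by
      intro p
      rw [← mul_prod_erase _ _ (mem_univ k), prod_eq_one, mul_one]
      intro l hl
      rw [hk l (ne_of_mem_erase hl)]
      unfold G
      rw [clamp_of_nonpos, sub_zero]
      apply div_nonpos_of_nonpos_of_nonneg _ (hlam _).le
      have := start_nonneg lam b hlam l p
      linarith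
    unfold dc
    rw [one_mul, sum_congr rfl fun p _ => by rw [h1 p]]
    exact sum_lam_G lam b hlam hsum k (hx k).1 (hx k).2
  increasing := by
    intro u _ v _ huv
    have h : boxVolume (dc lam b) u v = ∑ i : I,
        lam i * boxVolume (fun x => ∏ k, G lam b k i (x k)) u v := by
      have h1 : dc lam b = fun x => (1 : ℝ) * ∑ i : I, lam i * ∏ k, G lam b k i (x k) := rfl
      rw [h1, boxVolume_sum univ, one_mul]
      apply sum_congr rfl
      intro p _
      rw [boxVolume_smul]
    rw [h]
    refine sum_nonneg fun p _ => mul_nonneg (hlam _).le ?_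
    rw [boxVolume_prod]
    exact prod_nonneg fun k _ => sub_nonneg.mpr (G_mono lam b hlam _ _ (huv k))

end

/-- the box `[0, b]` -/
def box (b : Fin n → ℝ) : Set (Fin n → ℝ) := {x | ∀ k, 0 ≤ x k ∧ x k ≤ b k}

theorem box_eq (b : Fin n → ℝ) : box b = Set.Icc (fun _ => 0) b := by
  ext x
  constructor
  · exact fun h => ⟨fun k => (h k).1, fun k => (h k).2⟩
  · exact fun h k => ⟨h.1 k, h.2 k⟩

theorem measurableSet_box (b : Fin n → ℝ) : MeasurableSet (box b) := by
  rw [box_eq]
  exact measurableSet_Icc

theorem volume_box {b : Fin n → ℝ} (hb : ∀ k, 0 ≤ b k) :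
    volume (box b) = ENNReal.ofReal (∏ k, b k) := by
  rw [box_eq, Real.volume_Icc_pi, ← ENNReal.ofReal_prod_of_nonneg]
  · simp
  · intro k _
    simpa using hb k

/-- **General dominance.** -/
theorem dominance (hn : 1 ≤ n) {I : Type*} [Fintype I] (lam : I → ℝ) (b : I → Fin n → ℝ)
    (hlam : ∀ i, 0 < lam i) (hb0 : ∀ i k, 0 ≤ b i k) (hb1 : ∀ i k, b i k ≤ 1)
    (hsum : ∑ i, lam i = 1)
    (hdom : ∀ k : Fin n, ∀ t : ℝ, 0 ≤ t → t ≤ 1 → (∑ i, if b i k ≤ t then lam i else 0) ≤ t) :
    1 - (maxAgreement n).toReal ≤ (volume (⋃ i, box (b i))).toReal := by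
  have hend : ∀ k i, start lam b k i + lam i ≤ b i k := fun k i =>
    (start_add_le lam b hlam k i).trans (hdom k _ (hb0 _ _) (hb1 _ _))
  have hC := isCopula_dc lam b hlam hsum fun k i => (hend k i).trans (hb1 _ _)
  set D : I → Set (Fin n → ℝ) := fun i => Set.Icc (fun k => 1 - b i k) (fun _ => 1) with hD
  set A : Set (Fin n → ℝ) := cube n \ ⋃ p, D p with hA
  have hmeas : MeasurableSet (⋃ p, D p) := MeasurableSet.iUnion fun p => measurableSet_Icc
  have hflip : volume (⋃ p, D p) = volume (⋃ i, box (b i)) := by
    have hmp := Measure.measurePreserving_sub_left (volume : Measure (Fin n → ℝ)) (fun _ : Fin n => (1 : ℝ))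
    rw [← hmp.measure_preimage hmeas.nullMeasurableSet]
    congr 1
    ext x
    simp only [Set.mem_preimage, Set.mem_iUnion, hD, Set.mem_Icc]
    apply exists_congr
    intro i
    constructor
    · rintro ⟨h1, h2⟩ k
      have h3 := h1 k
      have h4 := h2 k
      simp only [Pi.sub_apply] at h3 h4
      constructor <;> linarith
    · intro h
      constructor
      · intro k
        have := h k
        simp only [Pi.sub_apply]
        linarith [this.2]
      · intro k
        have := h k
        simp only [Pi.sub_apply]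
        linarith [this.1]
  have hfin : volume (⋃ p, D p) ≠ ⊤ := by
    refine ne_top_of_le_ne_top ?_ (measure_iUnion_fintype_le _ _)
    refine ENNReal.sum_ne_top.mpr fun i _ => ?_
    simp only [hD]
    rw [Real.volume_Icc_pi]
    exact (ENNReal.prod_lt_top fun k _ => ENNReal.ofReal_lt_top).ne
  have h1 : volume A ≤ maxAgreement n := by
    apply le_sSup
    refine ⟨A, Set.sdiff_subset, isClosed_cube.measurableSet.diff hmeas, ⟨dc lam b, hC, ?_⟩, rfl⟩
    rintro x ⟨hx, hx'⟩
    have h0 : dc lam b x = 0 := by
      unfold dc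
      rw [one_mul, sum_eq_zero]
      intro p _
      have h2 : ∃ k, x k < 1 - b p k := by
        by_contra hcon
        push Not at hcon
        exact hx' (Set.mem_iUnion.mpr ⟨p, ⟨fun k => hcon k, fun k => (hx k).2⟩⟩)
      obtain ⟨k, hk⟩ := h2
      have h3 : G lam b k p (x k) = 0 := by
        unfold G
        rw [clamp_of_one_le, sub_self]
        rw [le_div_iff₀ (hlam _)]
        have := hend k p
        linarith
      rw [prod_eq_zero (mem_univ k) h3, mul_zero]
    refine le_antisymm ?_ (lowerFrechet_le hn hC hx)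
    rw [h0]
    exact le_max_right _ _
  have h2 : volume (cube n) ≤ volume A + volume (⋃ p, D p) := by
    refine (measure_mono ?_).trans (measure_union_le _ _)
    intro x hx
    by_cases h : x ∈ ⋃ p, D p
    · exact Or.inr h
    · exact Or.inl ⟨hx, h⟩
  rw [volume_cube] at h2
  have h3 : (1 : ENNReal) ≤ maxAgreement n + volume (⋃ p, D p) := h2.trans (by gcongr)
  have h4 := ENNReal.toReal_mono (ENNReal.add_ne_top.mpr ⟨maxAgreement_ne_top, hfin⟩) h3
  rw [ENNReal.toReal_add maxAgreement_ne_top hfin] at h4
  simp only [ENNReal.toReal_one] at h4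
  rw [← hflip]
  linarith

end Pool.Agent.Helper62.AS
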