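import Pool.Agent.Helper62.AS.IndStmt
import Pool.Agent.Helper62.AS.Riem
import Pool.Agent.H80Band.Lev82

/-!
# The last step of `BandsRow` (helper62)
-/

set_option autoImplicit false

namespace Pool.Agent.Helper62.AS

open Finset Filter Topology Real Pool.Agent.H54Sharp Pool.Agent.Helper18.Sharp

theorem exp_neg_one_lt_one : exp (-1) < (1 : ℝ) := by
  rw [Real.exp_lt_one_iff]
  norm_num

theorem hasDerivAt_Fl {p : ℝ} (hp : 0 < p) : HasDerivAt Fl (Real.log p) p := by
  have h := ((hasDerivAt_id p).mul (Real.hasDerivAt_log hp.ne')).sub (hasDerivAt_id p)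
  have e : 1 * Real.log p + id p * p⁻¹ - 1 = Real.log p := by
    have : id p * p⁻¹ = 1 := mul_inv_cancel₀ hp.ne'
    rw [this]
    ring
  rw [e] at h
  exact h

theorem fl_log {a b τ : ℝ} (ha : 0 < a) (hab : a ≤ b) (h : ∀ p, a ≤ p → p ≤ b → τ ≤ negMulLog p) :
    τ * (Real.log b - Real.log a) ≤ Fl a - Fl b := by
  have hd : ∀ p ∈ Set.Icc a b, HasDerivAt (fun p => -Fl p - τ * Real.log p)
      (-Real.log p - τ * p⁻¹) p := by
    intro p hp
    have hp0 : 0 < p := ha.trans_le hp.1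
    exact (hasDerivAt_Fl hp0).neg.sub ((Real.hasDerivAt_log hp0.ne').const_mul τ)
  have hm : MonotoneOn (fun p => -Fl p - τ * Real.log p) (Set.Icc a b) := by
    apply monotoneOn_of_deriv_nonneg (convex_Icc a b)
    · exact fun p hp => (hd p hp).continuousAt.continuousWithinAt
    · intro p hp
      rw [interior_Icc] at hp
      exact (hd p (Set.Ioo_subset_Icc_self hp)).differentiableAt.differentiableWithinAt
    · intro p hp
      rw [interior_Icc] at hp
      rw [(hd p (Set.Ioo_subset_Icc_self hp)).deriv]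
      have hp0 : 0 < p := ha.trans hp.1
      have h1 := h p hp.1.le hp.2.le
      unfold negMulLog at h1
      have h2 : 0 ≤ (-Real.log p - τ * p⁻¹) * p := by
        field_simp
        linarith
      exact nonneg_of_mul_nonneg_left h2 hp0
  have h2 := hm (Set.left_mem_Icc.mpr hab) (Set.right_mem_Icc.mpr hab) hab
  simp only at h2
  linarith

theorem fl_anti {a b : ℝ} (ha : 0 < a) (hab : a ≤ b) (hb : b ≤ 1) : Fl b ≤ Fl a := by
  have h := fl_log (τ := 0) ha hab (fun p h1 h2 => by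
    unfold negMulLog
    have := Real.log_nonpos (ha.le.trans h1) (h2.trans hb)
    nlinarith [ha.le.trans h1])
  linarith

theorem levels_exist {L₀ R₀ : ℝ} (h0 : 0 < L₀) (hLR : L₀ < R₀)
    (h : negMulLog R₀ = negMulLog L₀) {J : ℕ} (hJ : 1 ≤ J) :
    ∃ Lz Rz : ℕ → ℝ, Levels J L₀ R₀ Lz Rz := by
  obtain ⟨Lz, Rz, h1, h2, h3, h4, -, -⟩ := Pool.Agent.H80Band.levels82 h0 hLR h.symm hJ
  exact ⟨Lz, Rz, ⟨h1, h2, fun g hg => (h3 g hg).1, fun g hg => (h3 g hg).2.1,
    fun g hg => (h4 g hg).1, fun g hg => (h4 g hg).2.1, fun g hg => (h4 g hg).2.2.1,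
    fun g hg => (h4 g hg).2.2.2⟩⟩

section bands
variable {m J : ℕ} {L R : ℕ → ℝ} {a : ℕ → ℕ}

theorem L_mono (hB : Bands m J L R a) : ∀ {g h : ℕ}, g ≤ h → h ≤ J → L g ≤ L h := by
  intro g h hgh
  induction h with
  | zero =>
    intro _
    rw [Nat.le_zero.mp hgh]
  | succ h ih =>
    intro hJ
    rcases Nat.lt_or_ge g (h + 1) with h1 | h1
    · exact (ih (by omega) (by omega)).trans (hB.mono h (by omega))
    · rw [show g = h + 1 by omega]

theorem R_anti (hB : Bands m J L R a) : ∀ {g h : ℕ}, g ≤ h → h ≤ J → R h ≤ R g := by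
  intro g h hgh
  induction h with
  | zero =>
    intro _
    rw [Nat.le_zero.mp hgh]
  | succ h ih =>
    intro hJ
    rcases Nat.lt_or_ge g (h + 1) with h1 | h1
    · exact (hB.anti h (by omega)).trans (ih (by omega) (by omega))
    · rw [show g = h + 1 by omega]

theorem L_le_R (hB : Bands m J L R a) {g h : ℕ} (hg : g ≤ J) (hh : h ≤ J) : L g ≤ R h := by
  have h1 := L_mono hB hg le_rfl
  have h2 := R_anti hB hh le_rfl
  rw [hB.meet] at h1
  exact h1.trans h2

theorem sum_M_range (g : ℕ) : ∑ h ∈ range g, Mg L R h = (L g - L 0) + (R 0 - R g) := by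
  induction g with
  | zero => simp
  | succ g ih =>
    rw [sum_range_succ, ih]
    unfold Mg
    ring

theorem sum_M (hB : Bands m J L R a) : ∑ g ∈ range J, Mg L R g = R 0 - L 0 := by
  rw [sum_M_range, hB.meet]
  ring

/-- the integral of `- log` over the band -/
noncomputable def Ig (L R : ℕ → ℝ) (g : ℕ) : ℝ :=
  (Fl (L g) - Fl (L (g + 1))) + (Fl (R (g + 1)) - Fl (R g))

/-- the integral of `- log` over the place of the band in the extra columns -/
noncomputable def IX (L R : ℕ → ℝ) (g : ℕ) : ℝ := Fl (Xg L R g) - Fl (Xg L R (g + 1))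

theorem sum_Ig (hB : Bands m J L R a) : ∑ g ∈ range J, Ig L R g = Fl (L 0) - Fl (R 0) := by
  have h : ∀ g : ℕ, ∑ h ∈ range g, Ig L R h = (Fl (L 0) - Fl (L g)) + (Fl (R g) - Fl (R 0)) := by
    intro g
    induction g with
    | zero => simp
    | succ g ih =>
      rw [sum_range_succ, ih]
      unfold Ig
      ring
  rw [h, hB.meet]
  ring

theorem Xg_zero : Xg L R 0 = L 0 := by simp [Xg]

theorem Xg_J (hB : Bands m J L R a) : Xg L R J = R 0 := by
  unfold Xg
  rw [sum_M hB]
  ring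

theorem Xg_mono (hB : Bands m J L R a) {g : ℕ} (hg : g < J) : Xg L R g ≤ Xg L R (g + 1) := by
  unfold Xg
  rw [sum_range_succ]
  have := hB.mpos g hg
  linarith

theorem Xg_ge (hB : Bands m J L R a) {g : ℕ} (hg : g ≤ J) : L 0 ≤ Xg L R g := by
  unfold Xg
  have : 0 ≤ ∑ h ∈ range g, Mg L R h :=
    sum_nonneg fun h hh => (hB.mpos h (by have := mem_range.mp hh; omega)).le
  linarith

theorem Xg_le (hB : Bands m J L R a) {g : ℕ} (hg : g ≤ J) : Xg L R g ≤ R 0 := by
  rw [← Xg_J hB]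
  unfold Xg
  have : ∑ h ∈ range g, Mg L R h ≤ ∑ h ∈ range J, Mg L R h :=
    sum_le_sum_of_subset_of_nonneg (range_subset_range.mpr hg)
      fun h hh _ => (hB.mpos h (mem_range.mp hh)).le
  linarith

theorem sum_IX (hB : Bands m J L R a) : ∑ g ∈ range J, IX L R g = Fl (L 0) - Fl (R 0) := by
  have h : ∀ g : ℕ, ∑ h ∈ range g, IX L R h = Fl (L 0) - Fl (Xg L R g) := by
    intro g
    induction g with
    | zero => simp [Xg_zero]
    | succ g ih =>
      rw [sum_range_succ, ih]
      unfold IX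
      ring
  rw [h, Xg_J hB]

theorem IX_nonneg (hB : Bands m J L R a) {g : ℕ} (hg : g < J) : 0 ≤ IX L R g := by
  unfold IX
  have := fl_anti (hB.pos.trans_le (Xg_ge hB hg.le)) (Xg_mono hB hg)
    ((Xg_le hB (by omega : g + 1 ≤ J)).trans hB.le_one)
  linarith

theorem tuned_iff (q r : ℕ) (y : ℕ → ℝ) (g : ℕ) : TunedAt m q r L R y g ↔
    ((m * q : ℕ) : ℝ) * Ig L R g + r * IX L R g =
      (((m * q + r : ℕ) : ℝ) - y g) * Mg L R g := by
  unfold TunedAt Ig IX
  constructor <;> intro h <;> linarith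

end bands

end Pool.Agent.Helper62.AS
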