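import Pool.Agent.Helper62.AS.Fin

/-!
# The inequalities of the last step of `BandsRow` (helper62)
-/

set_option autoImplicit false

namespace Pool.Agent.Helper62.AS

open Finset Filter Topology Real Pool.Agent.H54Sharp Pool.Agent.Helper18.Sharp

variable {m J : ℕ} {L R Lz Rz : ℕ → ℝ} {a : ℕ → ℕ} {L₀ R₀ δ : ℝ}

/-- the bands have almost the ideal measure -/
theorem M_close (hB : Bands m J L R a) (hlev : Levels J L₀ R₀ Lz Rz)
    (hc : ∀ g < J, |L g - Lz g| ≤ δ ∧ |R g - Rz g| ≤ δ) (hδ : 0 ≤ δ) (hJ : 1 ≤ J) :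
    ∀ g < J, |Mg L R g - (R₀ - L₀) / J| ≤ 4 * δ := by
  intro g hg
  have hJ0 : (0 : ℝ) < J := by exact_mod_cast hJ
  have e1 : (R₀ - L₀) / J = (R₀ - L₀) * (1 - (g : ℝ) / J) -
      (R₀ - L₀) * (1 - ((g + 1 : ℕ) : ℝ) / J) := by
    push_cast
    field_simp
    ring
  rw [← hlev.diff g hg.le] at e1
  obtain ⟨a1, a2⟩ := hc g hg
  rw [abs_le] at a1 a2 ⊢
  rcases Nat.lt_or_ge (g + 1) J with h | h
  · rw [← hlev.diff (g + 1) h.le] at e1
    obtain ⟨b1, b2⟩ := hc (g + 1) h
    rw [abs_le] at b1 b2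
    unfold Mg
    rw [e1]
    constructor <;> linarith [a1.1, a1.2, a2.1, a2.2, b1.1, b1.2, b2.1, b2.2]
  · have hgJ : g + 1 = J := by omega
    have e2 : (R₀ - L₀) * (1 - ((g + 1 : ℕ) : ℝ) / J) = 0 := by
      rw [hgJ]
      field_simp
      ring
    rw [e2] at e1
    have e3 : Mg L R g = R g - L g := by
      unfold Mg
      rw [hgJ, hB.meet]
      ring
    rw [e3, e1]
    constructor <;> linarith [a1.1, a1.2, a2.1, a2.2]

theorem W_nonneg (hB : Bands m J L R a) {g : ℕ} (hg : g < J) : 0 ≤ Wg L R g := by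
  unfold Wg
  have h1 := Real.log_le_log (hB.pos.trans_le (L_mono hB (Nat.zero_le g) hg.le)) (hB.mono g hg)
  have h2 : 0 < R (g + 1) := hB.pos.trans_le (L_le_R hB (Nat.zero_le J) (by omega))
  have h3 := Real.log_le_log h2 (hB.anti g hg)
  linarith

/-- `T ≥ τ` on the band gives `τ W ≤ I` -/
theorem W_le (hB : Bands m J L R a) {g : ℕ} (hg : g < J) {τ : ℝ}
    (h : ∀ p, L g ≤ p → p ≤ R g → τ ≤ negMulLog p) : τ * Wg L R g ≤ Ig L R g := by
  have p1 : 0 < L g := hB.pos.trans_le (L_mono hB (Nat.zero_le g) hg.le)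
  have p2 : 0 < R (g + 1) := hB.pos.trans_le (L_le_R hB (Nat.zero_le J) (by omega))
  have h1 := fl_log (τ := τ) p1 (hB.mono g hg)
    (fun p h1 h2 => h p h1 (h2.trans (L_le_R hB (by omega) hg.le)))
  have h2 := fl_log (τ := τ) p2 (hB.anti g hg)
    (fun p h1 h2 => h p ((L_le_R hB hg.le (by omega)).trans h1) h2)
  unfold Wg Ig
  rw [mul_add]
  linarith

theorem core {q r : ℕ} {R' ε l : ℝ} {y : ℕ → ℝ} (hJ : 1 ≤ J)
    (hB : Bands m J L R a) (hL0 : L 0 = L₀) (hR0 : R 0 = R') (hlev : Levels J L₀ R₀ Lz Rz)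
    (h0 : 0 < L₀) (hR₀ : exp (-1) < R₀) (hR₀1 : R₀ < 1) (hT : negMulLog R₀ = negMulLog L₀)
    (hR' : R₀ ≤ R') (hR'1 : R' < 1) (hε : 0 < ε) (hε1 : ε ≤ 1) (hl : 0 < l) (hl' : l ≤ ε / 48)
    (hd : 1 - ε / 24 ≤ R₀ - L₀)
    (hY : ((m * q + r : ℕ) : ℝ) * (negMulLog L₀ - negMulLog R') ≤ l)
    (hJl : (R₀ - L₀) / J * lT L₀ ≤ ε / 16) (hδ : 0 < δ) (hδ1 : 4 * δ ≤ (R₀ - L₀) / J / 2)
    (hδ2 : 4 * δ * (J * lT L₀) ≤ ε / 16)
    (hδ3 : ∀ g < J, ∀ p, Lz g - δ ≤ p → p ≤ Rz g + δ →
      exp (-(ε / 16)) * negMulLog (Lz g) ≤ negMulLog p)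
    (hy : ∀ g, y g = (1 + eulerMascheroniConstant + ε / 2) - lT (Lz g) - ε / 16)
    (htun : ∀ g, g + 1 < J → TunedAt m q r L R y g)
    (hc : ∀ g < J, |L g - Lz g| ≤ δ ∧ |R g - Rz g| ≤ δ) (hr : r < q) (hm : 1 ≤ m)
    (hmB : (q : ℝ) + ((l + (3 + lT L₀)) / ((R₀ - L₀) / J / 2) + (3 + lT L₀)) ≤
      ε / 2 * ((m * q : ℕ) : ℝ)) :
    ∃ y' : ℕ → ℝ, Tuned m q r J L R y' ∧ ∀ g < J, Mg L R g ≤ 2 / J ∧
      exp (y' g) ≤ exp (1 + eulerMascheroniConstant + ε) ∧
      exp (y' g) * Wg L R g ≤ exp (1 + eulerMascheroniConstant + ε) * Mg L R g := by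
  have hγ := eulerMascheroniConstant_lt_two_thirds
  have hγ0 := one_half_lt_eulerMascheroniConstant
  set G : ℝ := 1 + eulerMascheroniConstant with hG
  set M0 : ℝ := (R₀ - L₀) / J with hM0
  set n : ℝ := ((m * q + r : ℕ) : ℝ) with hn
  set n' : ℝ := ((m * q : ℕ) : ℝ) with hn'
  have hJ0 : (0 : ℝ) < J := by exact_mod_cast hJ
  have hnn' : n = n' + r := by
    rw [hn, hn']
    push_cast
    ring
  have hn'0 : 0 < n' := by
    rw [hn']
    have : 0 < m * q := Nat.mul_pos hm (by omega)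
    exact_mod_cast this
  have hrq : (r : ℝ) ≤ q := by exact_mod_cast hr.le
  have hr0 : (0 : ℝ) ≤ r := Nat.cast_nonneg r
  have hM0pos : 0 < M0 := div_pos (by linarith) hJ0
  have hLe : L₀ ≤ exp (-1) := by
    have := hlev.left 0 (by omega)
    rw [hlev.L0] at this
    exact this.le
  have hexp1 := exp_neg_one_lt_one
  have hLz1 : ∀ g ≤ J, L₀ ≤ Lz g := by
    intro g
    induction g with
    | zero => intro _; rw [hlev.L0]
    | succ g ih => exact fun hg => (ih (by omega)).trans (hlev.mono g (by omega)).le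
  have hLz0 : ∀ g < J, 0 < Lz g := fun g hg => h0.trans_le (hLz1 g hg.le)
  -- bounds for lT of the levels
  have hlT1 : ∀ g < J, 1 ≤ lT (Lz g) := fun g hg =>
    one_le_lT (hLz0 g hg) ((hlev.left g hg).trans hexp1)
  have hlT2 : ∀ g < J, lT (Lz g) ≤ lT L₀ := fun g hg =>
    lT_anti h0 (hLz1 g hg.le) (hlev.left g hg).le
  have hlT0 : 1 ≤ lT L₀ := one_le_lT h0 (hLe.trans_lt hexp1)
  have hMc := M_close hB hlev hc hδ.le hJ
  have hMl : ∀ g < J, M0 / 2 ≤ Mg L R g := by
    intro g hg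
    have h := hMc g hg
    rw [abs_le] at h
    linarith [h.1]
  have hMu : ∀ g < J, Mg L R g ≤ 2 * M0 := by
    intro g hg
    have h := hMc g hg
    rw [abs_le] at h
    linarith [h.2]
  have hsumM : ∑ g ∈ range J, Mg L R g = R' - L₀ := by
    rw [sum_M hB, hL0, hR0]
  -- the last value of y
  obtain ⟨J', rfl⟩ : ∃ J', J = J' + 1 := ⟨J - 1, by omega⟩
  set yl : ℝ := n - (n' * Ig L R J' + r * IX L R J') / Mg L R J' with hyl
  have hMJ : 0 < Mg L R J' := hB.mpos J' (by omega)
  set y' : ℕ → ℝ := fun g => if g < J' then y g else yl with hy'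
  have hy'1 : ∀ g < J', y' g = y g := fun g hg => by simp only [hy', if_pos hg]
  have hy'2 : y' J' = yl := by simp only [hy', lt_irrefl, if_false]
  have heq : ∀ g < J' + 1, n' * Ig L R g + r * IX L R g = (n - y' g) * Mg L R g := by
    intro g hg
    rcases Nat.lt_or_ge g J' with h | h
    · rw [hy'1 g h]
      exact (tuned_iff q r y g).mp (htun g (by omega))
    · have hgJ : g = J' := by omega
      rw [hgJ, hy'2, hyl]
      field_simp
      ring
  have htuned : Tuned m q r (J' + 1) L R y' := fun g hg => by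
    have := (tuned_iff (m := m) (L := L) (R := R) q r y' g).mpr (heq g hg)
    exact this
  -- the sum rule
  have hsum : ∑ g ∈ range (J' + 1), y' g * Mg L R g = n * (negMulLog L₀ - negMulLog R') := by
    have h1 : ∑ g ∈ range (J' + 1), (n' * Ig L R g + r * IX L R g) =
        ∑ g ∈ range (J' + 1), (n - y' g) * Mg L R g :=
      sum_congr rfl fun g hg => heq g (mem_range.mp hg)
    rw [sum_add_distrib, ← mul_sum, ← mul_sum, sum_Ig hB, sum_IX hB, hL0, hR0] at h1
    have h2 : ∑ g ∈ range (J' + 1), (n - y' g) * Mg L R g =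
        n * (R' - L₀) - ∑ g ∈ range (J' + 1), y' g * Mg L R g := by
      rw [← hsumM, mul_sum, ← sum_sub_distrib]
      exact sum_congr rfl fun g _ => by ring
    rw [h2] at h1
    have h3 : Fl L₀ - Fl R' = (R' - L₀) - (negMulLog L₀ - negMulLog R') := by
      unfold Fl negMulLog
      ring
    have h4 : n' * (Fl L₀ - Fl R') + r * (Fl L₀ - Fl R') = n * (Fl L₀ - Fl R') := by
      rw [hnn']
      ring
    rw [h4, h3] at h1
    linarith
  have hn0 : 0 < n := by linarith
  have hYnn : 0 ≤ n * (negMulLog L₀ - negMulLog R') := by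
    have := T_anti hR₀.le hR'
    apply mul_nonneg hn0.le
    linarith
  -- the given values are large enough
  have hbig : l ≤ ∑ g ∈ range (J' + 1), y g * Mg L R g := by
    have hriem := riem h0 hR₀1 hJ hlev.L0 hlev.R0 (fun g hg => hlev.T_eq g hg.le) hlev.diff
      (fun g hg => (hlev.mono g hg).le) (fun g hg => (hlev.anti g hg).le)
      (fun g hg => (hlev.left g hg).le) (fun g hg => (hlev.right g hg).le)
    have h1 : ∑ g ∈ range (J' + 1), lT (Lz g) * Mg L R g ≤
        ∑ g ∈ range (J' + 1), (M0 * lT (Lz g) + 4 * δ * lT L₀) := by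
      refine sum_le_sum fun g hg => ?_
      have hg' := mem_range.mp hg
      have h := hMc g hg'
      rw [abs_le] at h
      have a1 := hlT1 g hg'
      have a2 := hlT2 g hg'
      have a3 : lT (Lz g) * Mg L R g ≤ lT (Lz g) * (M0 + 4 * δ) :=
        mul_le_mul_of_nonneg_left (by linarith [h.2]) (by linarith)
      have a4 : lT (Lz g) * (4 * δ) ≤ lT L₀ * (4 * δ) :=
        mul_le_mul_of_nonneg_right a2 (by linarith)
      nlinarith
    rw [sum_add_distrib, ← mul_sum, sum_const, card_range, nsmul_eq_mul] at h1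
    have h2 : ∑ g ∈ range (J' + 1), y g * Mg L R g =
        (G + ε / 2 - ε / 16) * (R' - L₀) - ∑ g ∈ range (J' + 1), lT (Lz g) * Mg L R g := by
      rw [← hsumM, mul_sum, ← sum_sub_distrib]
      exact sum_congr rfl fun g _ => by
        rw [hy g]
        ring
    rw [h2]
    have h3 : ((J' + 1 : ℕ) : ℝ) * (4 * δ * lT L₀) ≤ ε / 16 := by
      calc _ = 4 * δ * (((J' + 1 : ℕ) : ℝ) * lT L₀) := by ring
        _ ≤ _ := hδ2
    have h4 : (G + ε / 2 - ε / 16) * (1 - ε / 24) ≤ (G + ε / 2 - ε / 16) * (R' - L₀) :=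
      mul_le_mul_of_nonneg_left (by linarith) (by linarith)
    have h5 : M0 * ∑ g ∈ range (J' + 1), lT (Lz g) ≤ G + M0 * lT L₀ := hriem
    have h6 : (G + ε / 2 - ε / 16) * (ε / 24) ≤ 5 / 2 * (ε / 24) := by
      apply mul_le_mul_of_nonneg_right _ (by linarith)
      rw [hG]
      linarith
    nlinarith
  -- the last value is at most the given one
  have hlast : y' J' ≤ y J' := by
    rw [sum_range_succ] at hbig hsum
    have h1 : ∑ g ∈ range J', y' g * Mg L R g = ∑ g ∈ range J', y g * Mg L R g :=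
      sum_congr rfl fun g hg => by rw [hy'1 g (mem_range.mp hg)]
    rw [h1] at hsum
    have h2 : y' J' * Mg L R J' ≤ y J' * Mg L R J' := by linarith
    exact le_of_mul_le_mul_right h2 hMJ
  have hle : ∀ g < J' + 1, y' g ≤ y g := by
    intro g hg
    rcases Nat.lt_or_ge g J' with h | h
    · rw [hy'1 g h]
    · rw [show g = J' by omega]
      exact hlast
  -- bounds for |y'|
  have hyb : ∀ g < J' + 1, |y g| ≤ 3 + lT L₀ := by
    intro g hg
    have a1 := hlT1 g hg
    have a2 := hlT2 g hg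
    rw [hy g, abs_le]
    constructor <;> (try rw [hG]) <;> linarith
  have hB2 : ∀ g < J' + 1, |y' g| ≤ (l + (3 + lT L₀)) / (M0 / 2) + (3 + lT L₀) := by
    intro g hg
    have hpos : 0 ≤ (l + (3 + lT L₀)) / (M0 / 2) := by positivity
    rcases Nat.lt_or_ge g J' with h | h
    · rw [hy'1 g h]
      have := hyb g hg
      linarith
    · have hgJ : g = J' := by omega
      rw [hgJ]
      have hup := hlast
      have hub := hyb J' (by omega)
      rw [abs_le] at hub ⊢
      refine ⟨?_, by linarith [hub.2]⟩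
      -- lower bound
      rw [sum_range_succ] at hsum
      have h1 : ∑ g ∈ range J', y' g * Mg L R g ≤ (3 + lT L₀) * (R' - L₀) := by
        rw [← hsumM, mul_sum, sum_range_succ]
        have h2 : ∑ g ∈ range J', y' g * Mg L R g ≤ ∑ g ∈ range J', (3 + lT L₀) * Mg L R g := by
          refine sum_le_sum fun g hg => ?_
          have hg' := mem_range.mp hg
          rw [hy'1 g hg']
          have h3 := hyb g (by omega)
          rw [abs_le] at h3
          exact mul_le_mul_of_nonneg_right h3.2 (hB.mpos g (by omega)).le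
        have h4 : 0 ≤ (3 + lT L₀) * Mg L R J' := by positivity
        linarith
      have h2 : (3 + lT L₀) * (R' - L₀) ≤ 3 + lT L₀ := by
        have : (3 + lT L₀) * (R' - L₀) ≤ (3 + lT L₀) * 1 :=
          mul_le_mul_of_nonneg_left (by linarith) (by linarith)
        linarith
      have h3 : -(3 + lT L₀) ≤ y' J' * Mg L R J' := by linarith
      by_contra hcon
      push Not at hcon
      have h6 : y' J' < -((3 + lT L₀) / (M0 / 2)) := by
        have : (3 + lT L₀) / (M0 / 2) ≤ (l + (3 + lT L₀)) / (M0 / 2) :=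
          div_le_div_of_nonneg_right (by linarith) (by positivity)
        linarith
      have h7 : y' J' * Mg L R J' < -((3 + lT L₀) / (M0 / 2)) * Mg L R J' :=
        mul_lt_mul_of_pos_right h6 hMJ
      have h8 : -((3 + lT L₀) / (M0 / 2)) * Mg L R J' ≤ -((3 + lT L₀) / (M0 / 2)) * (M0 / 2) := by
        have h9 : 0 ≤ (3 + lT L₀) / (M0 / 2) := by positivity
        have := mul_le_mul_of_nonneg_left (hMl J' (by omega)) h9
        linarith
      have h9 : -((3 + lT L₀) / (M0 / 2)) * (M0 / 2) = -(3 + lT L₀) := by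
        field_simp
      linarith
  refine ⟨y', htuned, fun g hg => ?_⟩
  have hMg : 0 < Mg L R g := hB.mpos g hg
  refine ⟨?_, ?_, ?_⟩
  · have h1 := hMu g hg
    have h2 : 2 * M0 ≤ 2 / ((J' + 1 : ℕ) : ℝ) := by
      rw [hM0, ← mul_div_assoc]
      apply div_le_div_of_nonneg_right _ hJ0.le
      linarith
    linarith
  · apply Real.exp_le_exp.mpr
    have h1 := hle g hg
    rw [hy g] at h1
    have := hlT1 g hg
    linarith
  · -- exp (y') W ≤ e^c τ W ≤ e^c I ≤ e^c (1 + ε / 2) M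
    have hTpos : 0 < negMulLog (Lz g) := T_pos (hLz0 g hg) ((hlev.left g hg).trans hexp1)
    set τ : ℝ := exp (-(ε / 16)) * negMulLog (Lz g) with hτ
    have e1 : exp (y g) = exp (G + ε / 2) * τ := by
      have e2 : y g = (G + ε / 2) + (-(ε / 16) + Real.log (negMulLog (Lz g))) := by
        rw [hy g, lT_eq]
        ring
      rw [e2, hτ, Real.exp_add (G + ε / 2), Real.exp_add (-(ε / 16)), Real.exp_log hTpos]
    have hW := W_nonneg hB hg
    have s1 : exp (y' g) * Wg L R g ≤ exp (y g) * Wg L R g :=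
      mul_le_mul_of_nonneg_right (Real.exp_le_exp.mpr (hle g hg)) hW
    have s2 : τ * Wg L R g ≤ Ig L R g := by
      apply W_le hB hg
      intro p h1 h2
      obtain ⟨c1, c2⟩ := hc g hg
      rw [abs_le] at c1 c2
      exact hδ3 g hg p (by linarith [c1.1]) (by linarith [c2.2])
    have s3 : Ig L R g ≤ (1 + ε / 2) * Mg L R g := by
      have h1 := heq g hg
      have h2 : 0 ≤ r * IX L R g := mul_nonneg hr0 (IX_nonneg hB hg)
      have h3 := hB2 g hg
      have h4 := neg_abs_le (y' g)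
      have h5 : n' * Ig L R g ≤ (n - y' g) * Mg L R g := by linarith
      have h6 : (n - y' g) * Mg L R g ≤ (n' * (1 + ε / 2)) * Mg L R g := by
        apply mul_le_mul_of_nonneg_right _ hMg.le
        rw [hnn']
        nlinarith
      have h7 : n' * Ig L R g ≤ n' * ((1 + ε / 2) * Mg L R g) := by
        calc _ ≤ _ := h5
          _ ≤ _ := h6
          _ = _ := by ring
      exact le_of_mul_le_mul_left h7 hn'0
    have s4 : 1 + ε / 2 ≤ exp (ε / 2) := by
      have := Real.add_one_le_exp (ε / 2)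
      linarith
    calc exp (y' g) * Wg L R g ≤ exp (y g) * Wg L R g := s1
      _ = exp (G + ε / 2) * (τ * Wg L R g) := by
          rw [e1]
          ring
      _ ≤ exp (G + ε / 2) * Ig L R g := mul_le_mul_of_nonneg_left s2 (Real.exp_pos _).le
      _ ≤ exp (G + ε / 2) * ((1 + ε / 2) * Mg L R g) :=
          mul_le_mul_of_nonneg_left s3 (Real.exp_pos _).le
      _ ≤ exp (G + ε / 2) * (exp (ε / 2) * Mg L R g) :=
          mul_le_mul_of_nonneg_left (mul_le_mul_of_nonneg_right s4 hMg.le) (Real.exp_pos _).le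
      _ = exp (G + ε) * Mg L R g := by
          rw [← mul_assoc, ← Real.exp_add]
          congr 2
          ring

end Pool.Agent.Helper62.AS
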