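import Pool.Agent.Helper62.AS.FinCore

/-!
# `BandsRow` from the induction over the bands (helper62)
-/

set_option autoImplicit false

namespace Pool.Agent.Helper62.AS

open Finset Filter Topology Real Pool.Agent.H54Sharp Pool.Agent.Helper18.Sharp

/-- continuity at one level -/
theorem level_cont {Lg Rg θ : ℝ} (h0 : 0 < Lg) (hL : Lg < exp (-1)) (_hR : exp (-1) < Rg)
    (hT : negMulLog Lg = negMulLog Rg) (hθ : θ < 1) :
    ∀ᶠ δ in 𝓝[>] (0 : ℝ), ∀ p, Lg - δ ≤ p → p ≤ Rg + δ → θ * negMulLog Lg ≤ negMulLog p := by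
  have hTpos : 0 < negMulLog Lg := T_pos h0 (hL.trans exp_neg_one_lt_one)
  have hlt : θ * negMulLog Lg < negMulLog Lg := by nlinarith
  have c1 : ∀ᶠ p in 𝓝 Lg, θ * negMulLog Lg < negMulLog p :=
    Real.continuous_negMulLog.continuousAt.eventually (lt_mem_nhds hlt)
  have c2 : ∀ᶠ p in 𝓝 Rg, θ * negMulLog Lg < negMulLog p :=
    Real.continuous_negMulLog.continuousAt.eventually (lt_mem_nhds (by rw [← hT]; exact hlt))
  obtain ⟨e1, he1, h1⟩ := Metric.eventually_nhds_iff.mp c1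
  obtain ⟨e2, he2, h2⟩ := Metric.eventually_nhds_iff.mp c2
  have hev : ∀ᶠ δ in 𝓝[>] (0 : ℝ), δ < min e1 e2 := by
    have : Set.Iio (min e1 e2) ∈ 𝓝[>] (0 : ℝ) :=
      mem_nhdsWithin_of_mem_nhds (Iio_mem_nhds (lt_min he1 he2))
    exact this
  filter_upwards [hev] with δ hδ p hp1 hp2
  have hδ1 : δ < e1 := hδ.trans_le (min_le_left _ _)
  have hδ2 : δ < e2 := hδ.trans_le (min_le_right _ _)
  rcases lt_or_ge p Lg with h | h
  · apply (h1 _).le
    rw [Real.dist_eq, abs_lt]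
    constructor <;> linarith
  · rcases le_or_gt p Rg with h' | h'
    · have h3 : negMulLog Lg ≤ negMulLog p := by
        rcases le_total p (exp (-1)) with h4 | h4
        · exact T_mono h0 h h4
        · rw [hT]
          exact T_anti h4 h'
      linarith
    · apply (h2 _).le
      rw [Real.dist_eq, abs_lt]
      constructor <;> linarith

/-- `1 - R₀ ≤ e T(L₀)` -/
theorem one_sub_le {L₀ R₀ : ℝ} (hR₀ : exp (-1) < R₀) (hR₀1 : R₀ < 1)
    (hT : negMulLog R₀ = negMulLog L₀) : 1 - R₀ ≤ 3 * negMulLog L₀ := by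
  have hpos : 0 < R₀ := (exp_pos _).trans hR₀
  have h1 : 1 - R₀ ≤ -Real.log R₀ := by
    have := Real.log_le_sub_one_of_pos hpos
    linarith
  have h2 : (1 : ℝ) / 3 ≤ R₀ := by
    have h3 := Real.exp_one_lt_d9
    have h4 : exp (-1) * exp 1 = 1 := by
      rw [← Real.exp_add]
      norm_num
    have h5 := Real.exp_pos (-1)
    nlinarith
  rw [← hT]
  unfold negMulLog
  have h6 : 0 ≤ -Real.log R₀ := by linarith
  nlinarith

theorem bandsRow_of_ind (hind : Ind) : BandsRow := by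
  intro ε' hε'
  set ε : ℝ := min ε' 1 with hε
  have hε0 : 0 < ε := lt_min hε' one_pos
  have hε1 : ε ≤ 1 := min_le_right _ _
  have hεε : ε ≤ ε' := min_le_left _ _
  have hγ0 := one_half_lt_eulerMascheroniConstant
  -- choice of `l`
  have h00 : negMulLog (0 : ℝ) < ε / 144 := by
    rw [negMulLog_zero]
    positivity
  have hcont : ∀ᶠ x in 𝓝 (0 : ℝ), negMulLog x < ε / 144 :=
    Real.continuous_negMulLog.continuousAt.eventually (gt_mem_nhds h00)
  obtain ⟨e, he, hcont⟩ := Metric.eventually_nhds_iff.mp hcont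
  refine ⟨min (ε / 48) (e / 2), lt_min (by positivity) (by positivity), ?_⟩
  set l : ℝ := min (ε / 48) (e / 2) with hl
  have hl0 : 0 < l := lt_min (by positivity) (by positivity)
  have hl1 : l ≤ ε / 48 := min_le_left _ _
  have hl2 : l ≤ e / 2 := min_le_right _ _
  intro L₀ R₀ h0 hL₀ hR₀ hR₀1 hT
  refine ⟨2, two_pos, ?_⟩
  have hTL : negMulLog L₀ < ε / 144 := by
    apply hcont
    rw [Real.dist_eq, abs_lt]
    constructor <;> linarith
  have h1R : 1 - R₀ ≤ ε / 48 := by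
    have := one_sub_le hR₀ hR₀1 hT
    linarith
  have hd : 1 - ε / 24 ≤ R₀ - L₀ := by linarith
  have hLe : L₀ < exp (-1) := by
    have h3 := Real.exp_one_lt_d9
    have h4 : exp (-1) * exp 1 = 1 := by
      rw [← Real.exp_add]
      norm_num
    have h5 := Real.exp_pos (-1)
    have h6 : L₀ ≤ 1 / 48 := by linarith
    nlinarith
  have hlT0 : 1 ≤ lT L₀ := one_le_lT h0 (hLe.trans exp_neg_one_lt_one)
  -- choice of `J`
  have hJev : ∀ᶠ J : ℕ in atTop, (R₀ - L₀) / J * lT L₀ ≤ ε / 16 := by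
    have ht : Tendsto (fun J : ℕ => (R₀ - L₀) / (J : ℝ) * lT L₀) atTop (𝓝 (0 * lT L₀)) :=
      (tendsto_const_div_atTop_nhds_zero_nat (R₀ - L₀)).mul_const _
    rw [zero_mul] at ht
    exact (ht.eventually (gt_mem_nhds (by positivity : (0 : ℝ) < ε / 16))).mono fun _ h => h.le
  filter_upwards [hJev, eventually_ge_atTop 1] with J hJl hJ q r hq hr C hC
  have hJ0 : (0 : ℝ) < J := by exact_mod_cast hJ
  have hM0 : 0 < (R₀ - L₀) / J := div_pos (by linarith) hJ0
  obtain ⟨Lz, Rz, hlev⟩ := levels_exist h0 (hLe.trans hR₀) hT hJ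
  have hLz1 : ∀ g ≤ J, L₀ ≤ Lz g := by
    intro g
    induction g with
    | zero => intro _; rw [hlev.L0]
    | succ g ih => exact fun hg => (ih (by omega)).trans (hlev.mono g (by omega)).le
  -- choice of `δ`
  have hδev : ∀ᶠ δ in 𝓝[>] (0 : ℝ), (0 < δ ∧ 4 * δ ≤ (R₀ - L₀) / J / 2 ∧
      4 * δ * (J * lT L₀) ≤ ε / 16) ∧ ∀ g ∈ range J, ∀ p, Lz g - δ ≤ p → p ≤ Rz g + δ →
        exp (-(ε / 16)) * negMulLog (Lz g) ≤ negMulLog p := by
    refine Filter.Eventually.and ?_ ?_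
    · have a1 : ∀ᶠ δ in 𝓝[>] (0 : ℝ), 0 < δ := eventually_mem_nhdsWithin
      have a2 : ∀ᶠ δ in 𝓝[>] (0 : ℝ), δ < (R₀ - L₀) / J / 8 :=
        mem_nhdsWithin_of_mem_nhds (Iio_mem_nhds (by positivity))
      have a3 : ∀ᶠ δ in 𝓝[>] (0 : ℝ), δ < ε / 64 / (J * lT L₀) :=
        mem_nhdsWithin_of_mem_nhds (Iio_mem_nhds (by positivity))
      filter_upwards [a1, a2, a3] with δ b1 b2 b3
      refine ⟨b1, by linarith, ?_⟩
      rw [lt_div_iff₀ (by positivity)] at b3
      linarith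
    · rw [Finset.eventually_all]
      intro g hg
      have hg' := mem_range.mp hg
      apply level_cont (h0.trans_le (hLz1 g hg'.le)) (hlev.left g hg') (hlev.right g hg')
        (hlev.T_eq g hg'.le)
      rw [Real.exp_lt_one_iff]
      linarith
  obtain ⟨δ, ⟨hδ0, hδ1, hδ2⟩, hδ3⟩ := hδev.exists
  -- choice of `m`
  set y : ℕ → ℝ := fun g => (1 + eulerMascheroniConstant + ε / 2) - lT (Lz g) - ε / 16 with hy
  have h := hind L₀ R₀ h0 hLe hR₀ hR₀1 hT J hJ Lz Rz hlev q r hq hr y C l δ hC hl0 hδ0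
  have hmev : ∀ᶠ m : ℕ in atTop, (q : ℝ) + ((l + (3 + lT L₀)) / ((R₀ - L₀) / J / 2) +
      (3 + lT L₀)) ≤ ε / 2 * ((m * q : ℕ) : ℝ) := by
    have ht : Tendsto (fun m : ℕ => ε / 2 * ((m * q : ℕ) : ℝ)) atTop atTop := by
      apply Tendsto.const_mul_atTop (by positivity)
      apply tendsto_natCast_atTop_atTop.comp
      exact tendsto_id.atTop_mul_const' (by omega)
    exact ht.eventually_ge_atTop _
  filter_upwards [h, hmev, eventually_ge_atTop 1] with m hm hmB hm1 R' hR' hR'C hR'1 hY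
  obtain ⟨L, R, a, hB, hL0, hR0, htun, hc⟩ := hm R' hR' hR'C hR'1 hY
  obtain ⟨y', hy', hfin⟩ := core hJ hB hL0 hR0 hlev h0 hR₀ hR₀1 hT hR' hR'1 hε0 hε1 hl0 hl1 hd hY
    hJl hδ0 hδ1 hδ2 (fun g hg => hδ3 g (mem_range.mpr hg)) (fun g => rfl) htun hc hr hm1 hmB
  have hexp : exp (1 + eulerMascheroniConstant + ε) ≤ exp (1 + eulerMascheroniConstant + ε') :=
    Real.exp_le_exp.mpr (by linarith)
  refine ⟨L, R, a, y', hB, hL0, hR0, hy', fun g hg => ?_⟩
  obtain ⟨f1, f2, f3⟩ := hfin g hg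
  exact ⟨f1, f2.trans hexp, f3.trans (mul_le_mul_of_nonneg_right hexp (hB.mpos g hg).le)⟩

end Pool.Agent.Helper62.AS
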