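import Pool.Agent.Helper62.AS.Lp

/-!
# The level set theorem from the three ranges
-/

set_option autoImplicit false
set_option linter.dupNamespace false

open Finset MeasureTheory

namespace Pool.Agent.Helper62.AS.LS

open Pool.Agent.Helper64.AS

lemma floor_half (x : ℝ) (hx : 1 ≤ x) : x ≤ 2 * (⌊x⌋₊ : ℝ) ∧ 1 ≤ ⌊x⌋₊ := by
  have h1 : 1 ≤ ⌊x⌋₊ := Nat.one_le_floor_iff x |>.mpr hx
  have h2 : x < ⌊x⌋₊ + 1 := Nat.lt_floor_add_one x
  have h3 : (1 : ℝ) ≤ (⌊x⌋₊ : ℝ) := by exact_mod_cast h1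
  exact ⟨by linarith, h1⟩

lemma sep_big (b₀ N : ℝ) (hN : 1 < N) (hB : 4 * N < |b₀| + N) (n n' : ℤ)
    (hn : n ∈ Finset.Icc ⌈b₀⌉ ⌊b₀ + N⌋) (hn' : n' ∈ Finset.Icc ⌈b₀⌉ ⌊b₀ + N⌋) (hne : n ≠ n') :
    |b₀| + N ≤ ((|n ^ 2 - n' ^ 2| : ℤ) : ℝ) := by
  rw [Finset.mem_Icc] at hn hn'
  have h1 : b₀ ≤ n := Int.ceil_le.mp hn.1
  have h2 : (n : ℝ) ≤ b₀ + N := Int.le_floor.mp hn.2
  have h1' : b₀ ≤ n' := Int.ceil_le.mp hn'.1
  have h2' : (n' : ℝ) ≤ b₀ + N := Int.le_floor.mp hn'.2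
  have h3 : (1 : ℝ) ≤ |(n : ℝ) - n'| := by
    have h4 : (1 : ℤ) ≤ |n - n'| := Int.one_le_abs (sub_ne_zero.mpr hne)
    exact_mod_cast h4
  have h5 : |b₀| + N ≤ |(n : ℝ) + n'| := by
    rcases le_or_gt 0 b₀ with h | h
    · rw [abs_of_nonneg h] at hB ⊢
      refine le_trans ?_ (le_abs_self _)
      linarith
    · rw [abs_of_neg h] at hB ⊢
      refine le_trans ?_ (neg_le_abs _)
      linarith
  have h6 : ((|n ^ 2 - n' ^ 2| : ℤ) : ℝ) = |(n : ℝ) - n'| * |(n : ℝ) + n'| := by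
    push_cast
    rw [← abs_mul]
    congr 1
    ring
  rw [h6]
  calc |b₀| + N ≤ |(n : ℝ) + n'| := h5
    _ = 1 * |(n : ℝ) + n'| := (one_mul _).symm
    _ ≤ _ := mul_le_mul_of_nonneg_right h3 (abs_nonneg _)

lemma box_sub (r : ℕ) (b : Fin (r + 1) → ℝ) (N : ℝ) (hN : 1 < N) :
    ∃ N₀ : ℕ, (N₀ : ℝ) ≤ 2 * N ∧
      Finset.Icc ⌈b 0⌉ ⌊b 0 + N⌋ = Finset.Ico ⌈b 0⌉ (⌈b 0⌉ + N₀) ∧
      Pool.Agent.Helper64.AS.box r b N ⊆
        bx r (Finset.Ico ⌈b 0⌉ (⌈b 0⌉ + N₀)) (fun l => ⌈b l.succ⌉) ⌊N⌋₊ := by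
  have hle : ⌈b 0⌉ ≤ ⌊b 0 + N⌋ + 1 := by
    have h1 : ((⌈b 0⌉ : ℤ) : ℝ) < b 0 + 1 := Int.ceil_lt_add_one _
    have h2 : b 0 + N < ⌊b 0 + N⌋ + 1 := Int.lt_floor_add_one _
    have h3 : ((⌈b 0⌉ : ℤ) : ℝ) < ((⌊b 0 + N⌋ + 1 : ℤ) : ℝ) := by
      push_cast
      linarith
    exact (Int.cast_lt.mp h3).le
  have hN0 : ((⌊b 0 + N⌋ + 1 - ⌈b 0⌉).toNat : ℤ) = ⌊b 0 + N⌋ + 1 - ⌈b 0⌉ :=
    Int.toNat_of_nonneg (by linarith)
  have hset : Finset.Icc ⌈b 0⌉ ⌊b 0 + N⌋ =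
      Finset.Ico ⌈b 0⌉ (⌈b 0⌉ + ((⌊b 0 + N⌋ + 1 - ⌈b 0⌉).toNat : ℤ)) := by
    rw [hN0]
    ext n
    rw [Finset.mem_Icc, Finset.mem_Ico]
    constructor
    · rintro ⟨h1, h2⟩
      exact ⟨h1, by linarith⟩
    · rintro ⟨h1, h2⟩
      exact ⟨h1, by linarith⟩
  refine ⟨(⌊b 0 + N⌋ + 1 - ⌈b 0⌉).toNat, ?_, hset, ?_⟩
  · have h1 : (((⌊b 0 + N⌋ + 1 - ⌈b 0⌉).toNat : ℤ) : ℝ) = ((⌊b 0 + N⌋ + 1 - ⌈b 0⌉ : ℤ) : ℝ) := by
      rw [hN0]
    rw [Int.cast_natCast] at h1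
    rw [h1]
    push_cast
    have h2 : (⌊b 0 + N⌋ : ℝ) ≤ b 0 + N := Int.floor_le _
    have h3 : b 0 ≤ (⌈b 0⌉ : ℝ) := Int.le_ceil _
    linarith
  · unfold Pool.Agent.Helper64.AS.box bx
    rw [← hset]
    apply Finset.product_subset_product (Finset.Subset.refl _)
    apply Fintype.piFinset_subset
    intro l n hn
    rw [Finset.mem_Icc] at hn ⊢
    refine ⟨hn.1, ?_⟩
    have h1 : (n : ℝ) ≤ b l.succ + N := Int.le_floor.mp hn.2
    have h2 : b l.succ ≤ (⌈b l.succ⌉ : ℝ) := Int.le_ceil _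
    have h3 : ((n - ⌈b l.succ⌉ : ℤ) : ℝ) ≤ N := by
      push_cast
      linarith
    have h4 : n - ⌈b l.succ⌉ ≤ ⌊N⌋ := Int.le_floor.mpr h3
    have h5 : (⌊N⌋₊ : ℤ) = ⌊N⌋ := Int.natCast_floor_eq_floor (by linarith)
    rw [h5]
    linarith

/-- The crude range. -/
lemma crude_case (r : ℕ) (C3 : ℝ) (κ₂ : ℕ) (hC3 : 0 < C3)
    (hcr : ∀ (N Lam : ℝ) (n₀ : ℤ) (N₀ L K : ℕ) (β : Fin r → ℤ)
      (a : ℤ × (Fin r → ℤ) → ℂ), 1 ≤ N → 1 ≤ Lam → C3 * Lam ^ κ₂ ≤ N → (N₀ : ℝ) ≤ 2 * N →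
      (L : ℝ) ≤ N → 1 ≤ K → (K : ℝ) ≤ N ^ 2 →
      (∀ n ∈ Finset.Ico n₀ (n₀ + N₀), ∀ n' ∈ Finset.Ico n₀ (n₀ + N₀), n ≠ n' →
        (K : ℤ) ≤ |n ^ 2 - n' ^ 2|) →
      ∑ ξ ∈ bx r (Finset.Ico n₀ (n₀ + N₀)) β L, ‖a ξ‖ ^ 2 ≤ 1 →
      (volume {z ∈ cube r | N ^ (((r : ℝ) + 1) / 2) / Lam <
        ‖FF r (bx r (Finset.Ico n₀ (n₀ + N₀)) β L) a z.1 z.2‖}).toReal ≤
        C3 * Lam ^ κ₂ / (N ^ (r + 1) * K))
    (b : Fin (r + 1) → ℝ) (N lam : ℝ) (a : ℤ × (Fin r → ℤ) → ℂ) (hN : 1 < N) (hlam : 0 < lam)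
    (ha : ∑ ξ ∈ Pool.Agent.Helper64.AS.box r b N, ‖a ξ‖ ^ 2 ≤ 1)
    (hlam2 : lam ≤ (2 * N) ^ (((r : ℝ) + 1) / 2)) (k : ℕ) (hk : κ₂ + 2 ≤ k)
    (hR : (max (N ^ (((r : ℝ) + 1) / 2) / lam) 2) ^ k < (|b 0| + N) / N)
    (hCN : C3 * (max (N ^ (((r : ℝ) + 1) / 2) / lam) 1) ^ κ₂ ≤ N) :
    (volume {z ∈ cube r | lam < ‖FF r (Pool.Agent.Helper64.AS.box r b N) a z.1 z.2‖}).toReal ≤
      2 * (C3 + 1) * 2 ^ (r + 2) * lam ^ (-(2 + 2 / ((r : ℝ) + 1))) := by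
  classical
  have hN0 : 0 < N := by linarith
  set G : ℝ := N ^ (((r : ℝ) + 1) / 2) with hG
  have hG0 : 0 < G := by positivity
  set Λ : ℝ := G / lam with hΛ
  have hΛ0 : 0 < Λ := by positivity
  set Lam : ℝ := max Λ 1 with hLam
  have hLam1 : 1 ≤ Lam := le_max_right _ _
  have hLam2 : Lam ≤ max Λ 2 := max_le_max (le_refl _) (by norm_num)
  have h2le : (2 : ℝ) ≤ max Λ 2 := le_max_right _ _
  have hRN : (max Λ 2) ^ k * N < |b 0| + N := by
    rwa [lt_div_iff₀ hN0] at hR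
  have h4N : 4 * N < |b 0| + N := by
    refine lt_of_le_of_lt ?_ hRN
    apply mul_le_mul_of_nonneg_right _ hN0.le
    calc (4 : ℝ) = 2 ^ 2 := by norm_num
      _ ≤ (max Λ 2) ^ 2 := pow_le_pow_left₀ (by norm_num) h2le 2
      _ ≤ (max Λ 2) ^ k := pow_le_pow_right₀ (by linarith) (by omega)
  have hLk : Lam ^ κ₂ * N < |b 0| + N := by
    refine lt_of_le_of_lt ?_ hRN
    apply mul_le_mul_of_nonneg_right _ hN0.le
    calc Lam ^ κ₂ ≤ (max Λ 2) ^ κ₂ := pow_le_pow_left₀ (by linarith) hLam2 _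
      _ ≤ (max Λ 2) ^ k := pow_le_pow_right₀ (by linarith) (by omega)
  obtain ⟨N₀, hN₀, hset, hsub⟩ := box_sub r b N hN
  set K : ℕ := min ⌊|b 0| + N⌋₊ ⌊N ^ 2⌋₊ with hK
  have hB1 : 1 ≤ |b 0| + N := by linarith [abs_nonneg (b 0)]
  have hN21 : 1 ≤ N ^ 2 := one_le_pow₀ hN.le
  obtain ⟨hf1, hf1'⟩ := floor_half _ hB1
  obtain ⟨hf2, hf2'⟩ := floor_half _ hN21
  have hK1 : 1 ≤ K := le_min hf1' hf2'
  have hKB : (K : ℝ) ≤ |b 0| + N := by
    calc (K : ℝ) ≤ (⌊|b 0| + N⌋₊ : ℝ) := by exact_mod_cast min_le_left _ _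
      _ ≤ _ := Nat.floor_le (by linarith)
  have hKN : (K : ℝ) ≤ N ^ 2 := by
    calc (K : ℝ) ≤ (⌊N ^ 2⌋₊ : ℝ) := by exact_mod_cast min_le_right _ _
      _ ≤ _ := Nat.floor_le (by linarith)
  have hKpos : (0 : ℝ) < K := by exact_mod_cast hK1
  set a' : ℤ × (Fin r → ℤ) → ℂ := fun ξ =>
    if ξ ∈ Pool.Agent.Helper64.AS.box r b N then a ξ else 0 with ha'
  have hFF : ∀ z : ℝ × (Fin r → ℝ),
      FF r (bx r (Finset.Ico ⌈b 0⌉ (⌈b 0⌉ + N₀)) (fun l => ⌈b l.succ⌉) ⌊N⌋₊) a' z.1 z.2 =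
        FF r (Pool.Agent.Helper64.AS.box r b N) a z.1 z.2 := by
    intro z
    unfold FF
    rw [← Finset.sum_subset hsub]
    · refine Finset.sum_congr rfl fun ξ hξ => ?_
      simp only [ha', if_pos hξ]
    · intro ξ _ hξ
      simp only [ha', if_neg hξ, zero_mul]
  have hsum : ∑ ξ ∈ bx r (Finset.Ico ⌈b 0⌉ (⌈b 0⌉ + N₀)) (fun l => ⌈b l.succ⌉) ⌊N⌋₊,
      ‖a' ξ‖ ^ 2 ≤ 1 := by
    rw [← Finset.sum_subset hsub]
    · refine le_trans (le_of_eq (Finset.sum_congr rfl fun ξ hξ => ?_)) ha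
      simp only [ha', if_pos hξ]
    · intro ξ _ hξ
      simp [ha', if_neg hξ]
  have hmain := hcr N Lam ⌈b 0⌉ N₀ ⌊N⌋₊ K (fun l => ⌈b l.succ⌉) a' hN.le hLam1 hCN hN₀
    (Nat.floor_le hN0.le) hK1 hKN (by
      intro n hn n' hn' hne
      rw [← hset] at hn hn'
      have h1 := sep_big (b 0) N hN h4N n n' hn hn' hne
      have h2 : ((K : ℤ) : ℝ) ≤ ((|n ^ 2 - n' ^ 2| : ℤ) : ℝ) := by
        rw [Int.cast_natCast]
        exact hKB.trans h1
      exact Int.cast_le.mp h2) hsum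
  have hvol : (volume {z ∈ cube r |
      lam < ‖FF r (Pool.Agent.Helper64.AS.box r b N) a z.1 z.2‖}).toReal ≤
      C3 * Lam ^ κ₂ / (N ^ (r + 1) * K) := by
    refine le_trans (ENNReal.toReal_mono ?_ (measure_mono ?_)) hmain
    · exact ne_top_of_le_ne_top (Pool.Agent.Helper62.AS.Lp.cube_finite r)
        (measure_mono fun z hz => hz.1)
    · rintro z ⟨hz1, hz2⟩
      refine ⟨hz1, ?_⟩
      rw [hFF]
      refine lt_of_le_of_lt ?_ hz2
      rw [div_le_iff₀ (by linarith)]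
      calc G = lam * Λ := by rw [hΛ]; field_simp
        _ ≤ lam * Lam := mul_le_mul_of_nonneg_left (le_max_left _ _) hlam.le
  refine hvol.trans ?_
  have hkey : C3 * Lam ^ κ₂ * N ≤ 2 * (C3 + 1) * K := by
    rcases le_total ⌊|b 0| + N⌋₊ ⌊N ^ 2⌋₊ with h | h
    · have h1 : K = ⌊|b 0| + N⌋₊ := min_eq_left h
      rw [← h1] at hf1
      have h2 : Lam ^ κ₂ * N ≤ 2 * K := by linarith
      have h3 : C3 * (Lam ^ κ₂ * N) ≤ C3 * (2 * K) := mul_le_mul_of_nonneg_left h2 hC3.le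
      nlinarith
    · have h1 : K = ⌊N ^ 2⌋₊ := min_eq_right h
      rw [← h1] at hf2
      have h2 : C3 * Lam ^ κ₂ * N ≤ N * N := mul_le_mul_of_nonneg_right hCN hN0.le
      nlinarith
  have hlamq : (1 / (2 * N)) ^ (r + 2) ≤ lam ^ (-(2 + 2 / ((r : ℝ) + 1))) := by
    have h1 : ((2 * N) ^ (((r : ℝ) + 1) / 2)) ^ (-(2 + 2 / ((r : ℝ) + 1))) ≤
        lam ^ (-(2 + 2 / ((r : ℝ) + 1))) := by
      apply Real.rpow_le_rpow_of_nonpos hlam hlam2
      have : (0 : ℝ) < 2 + 2 / ((r : ℝ) + 1) := by positivity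
      linarith
    refine le_trans (le_of_eq ?_) h1
    rw [← Real.rpow_mul (by positivity), one_div, inv_pow, ← Real.rpow_natCast,
      ← Real.rpow_neg (by positivity)]
    congr 1
    push_cast
    field_simp
    ring
  calc C3 * Lam ^ κ₂ / (N ^ (r + 1) * K) = (C3 * Lam ^ κ₂ * N) / (N ^ (r + 2) * K) := by
        field_simp
        ring
    _ ≤ (2 * (C3 + 1) * K) / (N ^ (r + 2) * K) := by
        apply div_le_div_of_nonneg_right hkey (by positivity)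
    _ = 2 * (C3 + 1) * 2 ^ (r + 2) * (1 / (2 * N)) ^ (r + 2) := by
        rw [div_pow, mul_pow]
        field_simp
        simp
    _ ≤ _ := mul_le_mul_of_nonneg_left hlamq (by positivity)

theorem LS (hmid : S_LSmid) (htop : S_LStop) (hcrude : S_crude) : S_LS := by
  intro r hr
  obtain ⟨C1, A, hC1, hA, hmid⟩ := hmid r hr
  obtain ⟨C2, c₁, κ₁, hC2, hc₁, htop⟩ := htop r hr
  obtain ⟨C3, κ₂, hC3, hcr⟩ := hcrude r
  set k : ℕ := κ₂ + 2 with hk
  have hk0 : (0 : ℝ) < k := by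
    rw [hk]
    positivity
  set c : ℝ := min (c₁ / k) (1 / (2 * ((κ₂ : ℝ) + 1))) with hc
  have hc0 : 0 < c := lt_min (by positivity) (by positivity)
  have hc1 : c * k ≤ c₁ := by
    have := min_le_left (c₁ / k) (1 / (2 * ((κ₂ : ℝ) + 1)))
    rw [← hc, le_div_iff₀ hk0] at this
    exact this
  have hc2 : c * κ₂ ≤ 1 / 2 := by
    have h1 := min_le_right (c₁ / k) (1 / (2 * ((κ₂ : ℝ) + 1)))
    rw [← hc] at h1
    have h2 : c * κ₂ ≤ 1 / (2 * ((κ₂ : ℝ) + 1)) * κ₂ :=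
      mul_le_mul_of_nonneg_right h1 (Nat.cast_nonneg _)
    refine h2.trans ?_
    rw [div_mul_eq_mul_div, div_le_div_iff₀ (by positivity) (by norm_num)]
    nlinarith
  set Ns : ℝ := max (max C2 (((2 : ℝ) ^ k) ^ (1 / c₁))) (max (C3 ^ 2) 1) with hNs
  have hNs1 : 1 ≤ Ns := (le_max_right _ _).trans (le_max_right _ _)
  have hlogNs : 0 ≤ Real.log Ns := Real.log_nonneg hNs1
  refine ⟨C1 * (1 + Real.log Ns) ^ 2 + C1 * (1 + 1 / c) ^ 2 + C2 * (1 + k) ^ κ₁ +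
    2 * (C3 + 1) * 2 ^ (r + 2), A, κ₁ + 2, by positivity, hA, ?_⟩
  intro b N lam a hN hlam ha
  have hN0 : 0 < N := by linarith
  have hlogN : 0 < Real.log N := Real.log_pos hN
  have hlam0 : 0 < lam := by
    refine lt_of_lt_of_le ?_ hlam
    have : 0 < (|b 0| + N) * N := by positivity
    positivity
  set G : ℝ := N ^ (((r : ℝ) + 1) / 2) with hG
  have hG0 : 0 < G := by positivity
  set q : ℝ := 2 + 2 / ((r : ℝ) + 1) with hq
  set ℓ : ℝ := |Real.log (G / lam)| with hℓ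
  have hℓ0 : 0 ≤ ℓ := abs_nonneg _
  have hlq : 0 < lam ^ (-q) := Real.rpow_pos_of_pos hlam0 _
  have hpow1 : (1 : ℝ) ≤ (1 + ℓ) ^ (κ₁ + 2) := one_le_pow₀ (by linarith)
  have hpow2 : (1 + ℓ) ^ 2 ≤ (1 + ℓ) ^ (κ₁ + 2) := pow_le_pow_right₀ (by linarith) (by omega)
  have hpow3 : (1 + ℓ) ^ κ₁ ≤ (1 + ℓ) ^ (κ₁ + 2) := pow_le_pow_right₀ (by linarith) (by omega)
  have t1 : 0 ≤ C1 * (1 + Real.log Ns) ^ 2 := by positivity
  have t2 : 0 ≤ C1 * (1 + 1 / c) ^ 2 := by positivity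
  have t3 : 0 ≤ C2 * (1 + (k : ℝ)) ^ κ₁ := by positivity
  have t4 : 0 ≤ 2 * (C3 + 1) * 2 ^ (r + 2) := by positivity
  -- it is enough to bound by one of the four terms
  have hfinish : ∀ X : ℝ, 0 ≤ X → X ≤ C1 * (1 + Real.log Ns) ^ 2 + C1 * (1 + 1 / c) ^ 2 +
      C2 * (1 + k) ^ κ₁ + 2 * (C3 + 1) * 2 ^ (r + 2) → ∀ Y : ℝ, 0 ≤ Y →
      Y ≤ (1 + ℓ) ^ (κ₁ + 2) → X * Y * lam ^ (-q) ≤
      (C1 * (1 + Real.log Ns) ^ 2 + C1 * (1 + 1 / c) ^ 2 +
      C2 * (1 + k) ^ κ₁ + 2 * (C3 + 1) * 2 ^ (r + 2)) * (1 + ℓ) ^ (κ₁ + 2) * lam ^ (-q) := by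
    intro X hX0 hX Y hY0 hY
    apply mul_le_mul_of_nonneg_right _ hlq.le
    exact mul_le_mul hX hY hY0 (by linarith)
  rcases lt_or_ge N Ns with hsmall | hbig
  · -- small N
    have h1 := hmid b N lam a hN hlam ha
    have h2 : (1 + Real.log N) ^ 2 ≤ (1 + Real.log Ns) ^ 2 := by
      apply pow_le_pow_left₀ (by linarith)
      linarith [Real.log_le_log hN0 hsmall.le]
    refine h1.trans (le_trans ?_ (hfinish (C1 * (1 + Real.log Ns) ^ 2) t1 (by linarith) 1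
      zero_le_one hpow1))
    rw [mul_one]
    apply mul_le_mul_of_nonneg_right _ hlq.le
    exact mul_le_mul_of_nonneg_left h2 hC1.le
  · have hNC2 : C2 ≤ N := ((le_max_left _ _).trans (le_max_left _ _)).trans hbig
    have hN2k : (2 : ℝ) ^ k ≤ N ^ c₁ := by
      have h1 : ((2 : ℝ) ^ k) ^ (1 / c₁) ≤ N :=
        ((le_max_right _ _).trans (le_max_left _ _)).trans hbig
      have h2 := Real.rpow_le_rpow (by positivity) h1 hc₁.le
      rwa [← Real.rpow_mul (by positivity), one_div_mul_cancel hc₁.ne', Real.rpow_one] at h2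
    have hNC3 : C3 ≤ N ^ (1 / 2 : ℝ) := by
      have h1 : C3 ^ 2 ≤ N := ((le_max_left _ _).trans (le_max_right _ _)).trans hbig
      have h2 := Real.rpow_le_rpow (by positivity) h1 (by norm_num : (0 : ℝ) ≤ 1 / 2)
      rwa [← Real.rpow_natCast, ← Real.rpow_mul hC3.le, Nat.cast_ofNat, mul_one_div_cancel
        (two_ne_zero), Real.rpow_one] at h2
    rcases le_or_gt (N ^ c) (G / lam) with hcase1 | hcase1
    · -- middle levels
      have h1 := hmid b N lam a hN hlam ha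
      have h2 : Real.log N ≤ (1 / c) * ℓ := by
        have h3 : c * Real.log N ≤ Real.log (G / lam) := by
          rw [← Real.log_rpow hN0]
          exact Real.log_le_log (by positivity) hcase1
        have h4 : Real.log (G / lam) ≤ ℓ := le_abs_self _
        rw [one_div, inv_mul_eq_div, le_div_iff₀ hc0]
        linarith
      have h3 : (1 + Real.log N) ^ 2 ≤ (1 + 1 / c) ^ 2 * (1 + ℓ) ^ 2 := by
        rw [← mul_pow]
        apply pow_le_pow_left₀ (by linarith)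
        have : 0 < 1 / c := by positivity
        nlinarith
      refine h1.trans (le_trans ?_ (hfinish (C1 * (1 + 1 / c) ^ 2) t2 (by linarith)
        ((1 + ℓ) ^ 2) (by positivity) hpow2))
      apply mul_le_mul_of_nonneg_right _ hlq.le
      rw [mul_assoc]
      exact mul_le_mul_of_nonneg_left h3 hC1.le
    · rcases lt_or_ge ((2 * N) ^ (((r : ℝ) + 1) / 2)) lam with hempty | hlam2
      · -- the set is empty
        have : {z ∈ cube r |
            lam < ‖FF r (Pool.Agent.Helper64.AS.box r b N) a z.1 z.2‖} = ∅ := by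
          ext z
          simp only [Set.mem_ofPred_eq, Set.mem_empty_iff_false, iff_false]
          rintro ⟨-, h1⟩
          have h2 := Pool.Agent.Helper62.AS.Lp.FF_norm_le r b N hN a ha z.1 z.2
          linarith
        rw [this, measure_empty, ENNReal.toReal_zero]
        positivity
      · have hmaxN : max (G / lam) 2 ^ k ≤ N ^ c₁ := by
          rcases le_total (G / lam) 2 with h | h
          · rw [max_eq_right h]
            exact hN2k
          · rw [max_eq_left h]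
            calc (G / lam) ^ k ≤ (N ^ c) ^ k := pow_le_pow_left₀ (by positivity) hcase1.le _
              _ = N ^ (c * k) := by rw [← Real.rpow_natCast, ← Real.rpow_mul hN0.le]
              _ ≤ N ^ c₁ := Real.rpow_le_rpow_of_exponent_le hN.le hc1
        rcases le_or_gt ((|b 0| + N) / N) (max (G / lam) 2 ^ k) with hR | hR
        · -- top levels
          have h1 := htop b N lam a hNC2 hlam0 (by
            refine hcase1.le.trans (Real.rpow_le_rpow_of_exponent_le hN.le ?_)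
            have h2 : (1 : ℝ) ≤ k := by
              rw [hk]
              push_cast
              have : (0 : ℝ) ≤ κ₂ := Nat.cast_nonneg _
              linarith
            nlinarith) (hR.trans hmaxN) ha
          have hR1 : 1 ≤ (|b 0| + N) / N := by
            rw [one_le_div hN0]
            linarith [abs_nonneg (b 0)]
          have h2 : Real.log ((|b 0| + N) / N) ≤ k * (1 + ℓ) := by
            have h3 := Real.log_le_log (by positivity) hR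
            rw [Real.log_pow] at h3
            refine h3.trans (mul_le_mul_of_nonneg_left ?_ hk0.le)
            rcases le_total (G / lam) 2 with h | h
            · rw [max_eq_right h]
              have := Real.log_two_lt_d9
              linarith
            · rw [max_eq_left h]
              have := le_abs_self (Real.log (G / lam))
              linarith
          have h3 : (1 + ℓ + Real.log ((|b 0| + N) / N)) ^ κ₁ ≤
              (1 + (k : ℝ)) ^ κ₁ * (1 + ℓ) ^ κ₁ := by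
            rw [← mul_pow]
            apply pow_le_pow_left₀
            · have := Real.log_nonneg hR1
              linarith
            · linarith
          refine h1.trans (le_trans ?_ (hfinish (C2 * (1 + k) ^ κ₁) t3 (by linarith)
            ((1 + ℓ) ^ κ₁) (by positivity) hpow3))
          apply mul_le_mul_of_nonneg_right _ hlq.le
          rw [mul_assoc]
          exact mul_le_mul_of_nonneg_left h3 hC2.le
        · -- large shift
          have hCN : C3 * (max (G / lam) 1) ^ κ₂ ≤ N := by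
            have h1 : max (G / lam) 1 ≤ N ^ c := max_le hcase1.le (Real.one_le_rpow hN.le hc0.le)
            calc C3 * (max (G / lam) 1) ^ κ₂ ≤ N ^ (1 / 2 : ℝ) * (N ^ c) ^ κ₂ := by
                  apply mul_le_mul hNC3 _ (by positivity) (by positivity)
                  exact pow_le_pow_left₀ (by positivity) h1 _
              _ = N ^ (1 / 2 + c * κ₂) := by
                  rw [← Real.rpow_natCast, ← Real.rpow_mul hN0.le, ← Real.rpow_add hN0]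
              _ ≤ N ^ (1 : ℝ) := Real.rpow_le_rpow_of_exponent_le hN.le (by linarith)
              _ = N := Real.rpow_one N
          have h1 := crude_case r C3 κ₂ hC3 hcr b N lam a hN hlam0 ha hlam2 k (le_of_eq hk.symm)
            hR hCN
          refine h1.trans (le_trans ?_ (hfinish (2 * (C3 + 1) * 2 ^ (r + 2)) t4 (by linarith) 1
            zero_le_one hpow1))
          rw [mul_one]

end Pool.Agent.Helper62.AS.LS
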