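import Pool.Agent.Helper64.AS.Defs2
import Pool.Agent.Helper62.AS.LS

/-!
# Top levels for all shifts, and the `L^p` estimate for the large values for all shifts
-/

set_option autoImplicit false
set_option linter.dupNamespace false

open Finset MeasureTheory

namespace Pool.Agent.Helper62.AS.LSall

open Pool.Agent.Helper64.AS Pool.Agent.Helper62.AS.Lp

/-- The `L^p` estimate for the large values from a level set estimate, general threshold. -/
theorem Lp_gen (r : ℕ) (p : ℝ) (hp : 2 + 2 / ((r : ℝ) + 1) < p) (C : ℝ) (κ : ℕ) (hC : 0 < C)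
    (T₀ : (Fin (r + 1) → ℝ) → ℝ → ℝ) (hT₀ : ∀ b N, 1 < N → 0 < T₀ b N)
    (hLS : ∀ (b : Fin (r + 1) → ℝ) (N lam : ℝ) (a : ℤ × (Fin r → ℤ) → ℂ), 1 < N →
      T₀ b N ≤ lam → ∑ ξ ∈ Pool.Agent.Helper64.AS.box r b N, ‖a ξ‖ ^ 2 ≤ 1 →
      (volume {z ∈ cube r |
        lam < ‖FF r (Pool.Agent.Helper64.AS.box r b N) a z.1 z.2‖}).toReal ≤
        C * (1 + |Real.log (N ^ (((r : ℝ) + 1) / 2) / lam)|) ^ κ *
          lam ^ (-(2 + 2 / ((r : ℝ) + 1)))) :
    ∃ C' : ℝ, 0 < C' ∧ ∀ (b : Fin (r + 1) → ℝ) (N : ℝ) (a : ℤ × (Fin r → ℤ) → ℂ), 1 < N →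
      (∫ z in {z ∈ cube r | T₀ b N *
          Real.sqrt (∑ ξ ∈ Pool.Agent.Helper64.AS.box r b N, ‖a ξ‖ ^ 2) <
            ‖FF r (Pool.Agent.Helper64.AS.box r b N) a z.1 z.2‖},
        ‖FF r (Pool.Agent.Helper64.AS.box r b N) a z.1 z.2‖ ^ p) ^ (1 / p) ≤
      C' * N ^ (((r : ℝ) + 1) / 2 - ((r : ℝ) + 2) / p) *
        Real.sqrt (∑ ξ ∈ Pool.Agent.Helper64.AS.box r b N, ‖a ξ‖ ^ 2) := by
  set q : ℝ := 2 + 2 / ((r : ℝ) + 1) with hq
  have hr1 : (0 : ℝ) < (r : ℝ) + 1 := by positivity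
  have hq0 : 0 < q := by positivity
  have hp0 : 0 < p := by linarith
  set ε : ℝ := (p - q) / 2 with hε
  have hε0 : 0 < ε := by rw [hε]; linarith
  set y₀ : ℝ := 2 ^ (-(((r : ℝ) + 1) / 2)) with hy₀
  have hy₀0 : 0 < y₀ := Real.rpow_pos_of_pos (by norm_num) _
  obtain ⟨c, hc, hlog⟩ := log_absorb κ ε y₀ hε0 hy₀0
  set E : ℝ := 2 ^ (q + ε) / (1 - 2 ^ (-(p - (q + ε)))) * (C * c) with hE
  have hqε : q + ε < p := by rw [hε]; linarith
  have hE0 : 0 < E := by
    have hr1 : (2 : ℝ) ^ (-(p - (q + ε))) < 1 :=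
      Real.rpow_lt_one_of_one_lt_of_neg (by norm_num) (by linarith)
    have : (0 : ℝ) < 2 ^ (q + ε) / (1 - 2 ^ (-(p - (q + ε)))) :=
      div_pos (Real.rpow_pos_of_pos (by norm_num) _) (by linarith)
    positivity
  -- normalised statement
  have hnorm : ∀ (b : Fin (r + 1) → ℝ) (N : ℝ) (a : ℤ × (Fin r → ℤ) → ℂ), 1 < N →
      ∑ ξ ∈ Pool.Agent.Helper64.AS.box r b N, ‖a ξ‖ ^ 2 ≤ 1 →
      ∫ z in {z ∈ cube r | T₀ b N <
          ‖FF r (Pool.Agent.Helper64.AS.box r b N) a z.1 z.2‖}, ‖FF r (Pool.Agent.Helper64.AS.box r b N) a z.1 z.2‖ ^ p ≤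
        E * ((2 * N) ^ (((r : ℝ) + 1) / 2)) ^ (p - q) := by
    intro b N a hN ha
    have hN0 : 0 < N := by linarith
    have hlN : 0 < Real.log N := Real.log_pos hN
    set Lm : ℝ := (2 * N) ^ (((r : ℝ) + 1) / 2) with hLm
    have hLm0 : 0 < Lm := by positivity
    have hl0 : 0 < T₀ b N := hT₀ b N hN
    have h1 := dyadic' volume (cube r) (cube_measurable r) (cube_finite r)
      (fun z => ‖FF r (Pool.Agent.Helper64.AS.box r b N) a z.1 z.2‖) (FF_continuous r _ a).norm.measurable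
      (fun z => norm_nonneg _) p (q + ε)
      (T₀ b N) Lm (C * c * Lm ^ ε)
      hl0 hLm0 (by positivity) hqε (by positivity)
      (fun z => FF_norm_le r b N hN a ha z.1 z.2) (by
        intro lam h2 h3
        have hlam : 0 < lam := lt_of_lt_of_le hl0 h2
        have h4 := hLS b N lam a hN h2 ha
        refine h4.trans ?_
        have h5 : y₀ ≤ N ^ (((r : ℝ) + 1) / 2) / lam := by
          rw [le_div_iff₀ hlam]
          calc y₀ * lam ≤ y₀ * Lm := mul_le_mul_of_nonneg_left h3 hy₀0.le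
            _ = N ^ (((r : ℝ) + 1) / 2) := by
              rw [hLm, hy₀, Real.mul_rpow (by norm_num) hN0.le, ← mul_assoc,
                ← Real.rpow_add (by norm_num), neg_add_cancel, Real.rpow_zero, one_mul]
        have h6 := hlog _ h5
        have h7 : N ^ (((r : ℝ) + 1) / 2) / lam / y₀ = Lm / lam := by
          rw [hLm, hy₀, Real.mul_rpow (by norm_num) hN0.le, Real.rpow_neg (by norm_num)]
          field_simp
        rw [h7] at h6
        calc C * (1 + |Real.log (N ^ (((r : ℝ) + 1) / 2) / lam)|) ^ κ * lam ^ (-q) ≤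
            C * (c * (Lm / lam) ^ ε) * lam ^ (-q) := by
              apply mul_le_mul_of_nonneg_right _ (Real.rpow_nonneg hlam.le _)
              exact mul_le_mul_of_nonneg_left h6 hC.le
          _ = C * c * Lm ^ ε * lam ^ (-(q + ε)) := by
              have e : ∀ q' : ℝ, lam ^ (-(q' + ε)) = lam ^ (-q') * (lam ^ ε)⁻¹ := by
                intro q'
                rw [neg_add, Real.rpow_add hlam, Real.rpow_neg hlam.le ε]
              rw [e q, Real.div_rpow hLm0.le hlam.le]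
              ring)
    refine h1.trans (le_of_eq ?_)
    rw [hE]
    have h8 : Lm ^ (p - q) = Lm ^ ε * Lm ^ (p - (q + ε)) := by
      rw [← Real.rpow_add hLm0]
      congr 1
      ring
    rw [h8]
    ring
  refine ⟨E ^ (1 / p) * 2 ^ (((r : ℝ) + 1) / 2 - ((r : ℝ) + 2) / p), by positivity, ?_⟩
  intro b N a hN
  have hN0 : 0 < N := by linarith
  set s : ℝ := Real.sqrt (∑ ξ ∈ Pool.Agent.Helper64.AS.box r b N, ‖a ξ‖ ^ 2) with hs
  have hs0 : 0 ≤ s := Real.sqrt_nonneg _
  set T : ℝ := T₀ b N with hT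
  rcases hs0.eq_or_lt with h0 | hpos
  · -- all coefficients vanish
    have hsum0 : ∑ ξ ∈ Pool.Agent.Helper64.AS.box r b N, ‖a ξ‖ ^ 2 = 0 := by
      have h1 : 0 ≤ ∑ ξ ∈ Pool.Agent.Helper64.AS.box r b N, ‖a ξ‖ ^ 2 := sum_nonneg fun _ _ => sq_nonneg _
      exact (Real.sqrt_eq_zero h1).mp h0.symm
    have hz : ∀ z : ℝ × (Fin r → ℝ), FF r (Pool.Agent.Helper64.AS.box r b N) a z.1 z.2 = 0 := by
      intro z
      unfold FF
      refine sum_eq_zero fun ξ hξ => ?_
      have h2 := (sum_eq_zero_iff_of_nonneg fun ξ _ => sq_nonneg ‖a ξ‖).mp hsum0 ξ hξ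
      have h3 : a ξ = 0 := by simpa using h2
      rw [h3, zero_mul]
    have hset : {z ∈ cube r | T * s < ‖FF r (Pool.Agent.Helper64.AS.box r b N) a z.1 z.2‖} = ∅ := by
      ext z
      simp [hz z, ← h0]
    rw [hset, Measure.restrict_empty, integral_zero_measure, ← h0, mul_zero,
      Real.zero_rpow (by positivity)]
  · have hs2 : s ^ 2 = ∑ ξ ∈ Pool.Agent.Helper64.AS.box r b N, ‖a ξ‖ ^ 2 :=
      Real.sq_sqrt (sum_nonneg fun _ _ => sq_nonneg _)
    have hFs : ∀ z : ℝ × (Fin r → ℝ), FF r (Pool.Agent.Helper64.AS.box r b N) (fun ξ => ((s⁻¹ : ℝ) : ℂ) * a ξ) z.1 z.2 =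
        ((s⁻¹ : ℝ) : ℂ) * FF r (Pool.Agent.Helper64.AS.box r b N) a z.1 z.2 := by
      intro z
      unfold FF
      rw [mul_sum]
      exact sum_congr rfl fun ξ _ => by ring
    have hnF : ∀ z : ℝ × (Fin r → ℝ), ‖FF r (Pool.Agent.Helper64.AS.box r b N) (fun ξ => ((s⁻¹ : ℝ) : ℂ) * a ξ) z.1 z.2‖ =
        s⁻¹ * ‖FF r (Pool.Agent.Helper64.AS.box r b N) a z.1 z.2‖ := by
      intro z
      rw [hFs, norm_mul, Complex.norm_real, Real.norm_eq_abs, abs_of_pos (inv_pos.mpr hpos)]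
    have hns : ∑ ξ ∈ Pool.Agent.Helper64.AS.box r b N, ‖((s⁻¹ : ℝ) : ℂ) * a ξ‖ ^ 2 ≤ 1 := by
      have h1 : ∑ ξ ∈ Pool.Agent.Helper64.AS.box r b N, ‖((s⁻¹ : ℝ) : ℂ) * a ξ‖ ^ 2 = (s⁻¹) ^ 2 * s ^ 2 := by
        rw [hs2, mul_sum]
        refine sum_congr rfl fun ξ _ => ?_
        rw [norm_mul, mul_pow, Complex.norm_real, Real.norm_eq_abs, sq_abs]
      rw [h1, ← mul_pow, inv_mul_cancel₀ hpos.ne', one_pow]
    have h2 := hnorm b N _ hN hns
    have hset : {z ∈ cube r | T < ‖FF r (Pool.Agent.Helper64.AS.box r b N) (fun ξ => ((s⁻¹ : ℝ) : ℂ) * a ξ) z.1 z.2‖} =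
        {z ∈ cube r | T * s < ‖FF r (Pool.Agent.Helper64.AS.box r b N) a z.1 z.2‖} := by
      ext z
      simp only [Set.mem_ofPred_eq]
      rw [hnF, ← div_eq_inv_mul, lt_div_iff₀ hpos]
    rw [hset] at h2
    have hint : ∫ z in {z ∈ cube r | T * s < ‖FF r (Pool.Agent.Helper64.AS.box r b N) a z.1 z.2‖},
        ‖FF r (Pool.Agent.Helper64.AS.box r b N) (fun ξ => ((s⁻¹ : ℝ) : ℂ) * a ξ) z.1 z.2‖ ^ p =
        (s⁻¹) ^ p * ∫ z in {z ∈ cube r | T * s < ‖FF r (Pool.Agent.Helper64.AS.box r b N) a z.1 z.2‖},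
          ‖FF r (Pool.Agent.Helper64.AS.box r b N) a z.1 z.2‖ ^ p := by
      rw [← integral_const_mul]
      congr 1
      funext z
      rw [hnF, Real.mul_rpow (inv_pos.mpr hpos).le (norm_nonneg _)]
    rw [hint] at h2
    set I : ℝ := ∫ z in {z ∈ cube r | T * s < ‖FF r (Pool.Agent.Helper64.AS.box r b N) a z.1 z.2‖},
          ‖FF r (Pool.Agent.Helper64.AS.box r b N) a z.1 z.2‖ ^ p with hI
    have hI0 : 0 ≤ I := integral_nonneg fun z => Real.rpow_nonneg (norm_nonneg _) _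
    have hsp : 0 < s ^ p := Real.rpow_pos_of_pos hpos p
    have h3 : I ≤ (E * ((2 * N) ^ (((r : ℝ) + 1) / 2)) ^ (p - q)) * s ^ p := by
      rw [Real.inv_rpow hpos.le, inv_mul_le_iff₀ hsp] at h2
      linarith
    have h2N : (0 : ℝ) < 2 * N := by linarith
    calc I ^ (1 / p) ≤ ((E * ((2 * N) ^ (((r : ℝ) + 1) / 2)) ^ (p - q)) * s ^ p) ^ (1 / p) :=
          Real.rpow_le_rpow hI0 h3 (by positivity)
      _ = E ^ (1 / p) * (((2 * N) ^ (((r : ℝ) + 1) / 2)) ^ (p - q)) ^ (1 / p) *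
          (s ^ p) ^ (1 / p) := by
          rw [Real.mul_rpow (by positivity) hsp.le, Real.mul_rpow hE0.le (by positivity)]
      _ = E ^ (1 / p) * (2 * N) ^ (((r : ℝ) + 1) / 2 - ((r : ℝ) + 2) / p) * s := by
          rw [← Real.rpow_mul h2N.le, ← Real.rpow_mul h2N.le, ← Real.rpow_mul hpos.le,
            mul_one_div_cancel hp0.ne', Real.rpow_one]
          congr 3
          rw [hq]
          field_simp
          ring
      _ = _ := by
          rw [Real.mul_rpow (by norm_num) hN0.le]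
          ring


theorem LSall (htop : S_LStop) (hcrude : S_crude) : S_LSall := by
  intro r hr
  obtain ⟨C2, c₁, κ₁, hC2, hc₁, htop⟩ := htop r hr
  obtain ⟨C3, κ₂, hC3, hcr⟩ := hcrude r
  set k : ℕ := κ₂ + 2 with hk
  have hk0 : (0 : ℝ) < k := by
    rw [hk]
    positivity
  set c : ℝ := min (c₁ / k) (1 / (2 * ((κ₂ : ℝ) + 1))) with hc
  have hc0 : 0 < c := lt_min (by positivity) (by positivity)
  have hc1 : c * k ≤ c₁ := by
    have := min_le_left (c₁ / k) (1 / (2 * ((κ₂ : ℝ) + 1)))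
    rw [← hc, le_div_iff₀ hk0] at this
    exact this
  have hc2 : c * κ₂ ≤ 1 / 2 := by
    have h1 := min_le_right (c₁ / k) (1 / (2 * ((κ₂ : ℝ) + 1)))
    rw [← hc] at h1
    have h2 : c * κ₂ ≤ 1 / (2 * ((κ₂ : ℝ) + 1)) * κ₂ :=
      mul_le_mul_of_nonneg_right h1 (Nat.cast_nonneg _)
    refine h2.trans ?_
    rw [div_mul_eq_mul_div, div_le_div_iff₀ (by positivity) (by norm_num)]
    nlinarith
  set Ns : ℝ := max (max C2 (((2 : ℝ) ^ k) ^ (1 / c₁))) (max (C3 ^ 2) 1) with hNs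
  have hNs1 : 1 ≤ Ns := (le_max_right _ _).trans (le_max_right _ _)
  set q : ℝ := 2 + 2 / ((r : ℝ) + 1) with hq
  have hq0 : 0 < q := by positivity
  set C1 : ℝ := (volume (cube r)).toReal * (((2 * Ns) ^ (((r : ℝ) + 1) / 2)) ^ q) with hC1
  have hC1' : 0 ≤ C1 := by positivity
  refine ⟨C1 + C2 * (1 + k) ^ κ₁ + 2 * (C3 + 1) * 2 ^ (r + 2), c, κ₁, by positivity, hc0, ?_⟩
  intro b N lam a hN hlam ha
  have hN0 : 0 < N := by linarith
  have hlogN : 0 < Real.log N := Real.log_pos hN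
  have hlam0 : 0 < lam := lt_of_lt_of_le (Real.rpow_pos_of_pos hN0 _) hlam
  set G : ℝ := N ^ (((r : ℝ) + 1) / 2) with hG
  have hG0 : 0 < G := by positivity
  have hcase1 : G / lam ≤ N ^ c := by
    rw [div_le_iff₀ hlam0]
    calc G = N ^ c * N ^ (((r : ℝ) + 1) / 2 - c) := by
          rw [← Real.rpow_add hN0, hG]
          congr 1
          ring
      _ ≤ N ^ c * lam := mul_le_mul_of_nonneg_left hlam (by positivity)
  set ℓ : ℝ := |Real.log (G / lam)| with hℓ
  have hℓ0 : 0 ≤ ℓ := abs_nonneg _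
  have hlq : 0 < lam ^ (-q) := Real.rpow_pos_of_pos hlam0 _
  have hpow1 : (1 : ℝ) ≤ (1 + ℓ) ^ κ₁ := one_le_pow₀ (by linarith)
  have t3 : 0 ≤ C2 * (1 + (k : ℝ)) ^ κ₁ := by positivity
  have t4 : 0 ≤ 2 * (C3 + 1) * 2 ^ (r + 2) := by positivity
  have hfinish : ∀ X : ℝ, 0 ≤ X → X ≤ C1 + C2 * (1 + k) ^ κ₁ + 2 * (C3 + 1) * 2 ^ (r + 2) →
      ∀ Y : ℝ, 0 ≤ Y → Y ≤ (1 + ℓ) ^ κ₁ → X * Y * lam ^ (-q) ≤
      (C1 + C2 * (1 + k) ^ κ₁ + 2 * (C3 + 1) * 2 ^ (r + 2)) * (1 + ℓ) ^ κ₁ * lam ^ (-q) := by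
    intro X hX0 hX Y hY0 hY
    apply mul_le_mul_of_nonneg_right _ hlq.le
    exact mul_le_mul hX hY hY0 (by linarith)
  rcases lt_or_ge ((2 * N) ^ (((r : ℝ) + 1) / 2)) lam with hempty | hlam2
  · -- the set is empty
    have : {z ∈ cube r |
        lam < ‖FF r (Pool.Agent.Helper64.AS.box r b N) a z.1 z.2‖} = ∅ := by
      ext z
      simp only [Set.mem_ofPred_eq, Set.mem_empty_iff_false, iff_false]
      rintro ⟨-, h1⟩
      have h2 := Pool.Agent.Helper62.AS.Lp.FF_norm_le r b N hN a ha z.1 z.2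
      linarith
    rw [this, measure_empty, ENNReal.toReal_zero]
    positivity
  rcases lt_or_ge N Ns with hsmall | hbig
  · -- small N
    have h1 : (volume {z ∈ cube r |
        lam < ‖FF r (Pool.Agent.Helper64.AS.box r b N) a z.1 z.2‖}).toReal ≤
        (volume (cube r)).toReal :=
      ENNReal.toReal_mono (Pool.Agent.Helper62.AS.Lp.cube_finite r)
        (measure_mono fun z hz => hz.1)
    have h2 : 1 ≤ (((2 * Ns) ^ (((r : ℝ) + 1) / 2)) ^ q) * lam ^ (-q) := by
      rw [Real.rpow_neg hlam0.le, ← div_eq_mul_inv, one_le_div (Real.rpow_pos_of_pos hlam0 _)]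
      apply Real.rpow_le_rpow hlam0.le _ hq0.le
      refine hlam2.trans (Real.rpow_le_rpow (by linarith) (by linarith) (by positivity))
    refine h1.trans (le_trans ?_ (hfinish C1 hC1' (by linarith) 1 zero_le_one hpow1))
    rw [mul_one, hC1]
    calc (volume (cube r)).toReal = (volume (cube r)).toReal * 1 := (mul_one _).symm
      _ ≤ (volume (cube r)).toReal * ((((2 * Ns) ^ (((r : ℝ) + 1) / 2)) ^ q) * lam ^ (-q)) :=
          mul_le_mul_of_nonneg_left h2 ENNReal.toReal_nonneg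
      _ = _ := by ring
  · have hNC2 : C2 ≤ N := ((le_max_left _ _).trans (le_max_left _ _)).trans hbig
    have hN2k : (2 : ℝ) ^ k ≤ N ^ c₁ := by
      have h1 : ((2 : ℝ) ^ k) ^ (1 / c₁) ≤ N :=
        ((le_max_right _ _).trans (le_max_left _ _)).trans hbig
      have h2 := Real.rpow_le_rpow (by positivity) h1 hc₁.le
      rwa [← Real.rpow_mul (by positivity), one_div_mul_cancel hc₁.ne', Real.rpow_one] at h2
    have hNC3 : C3 ≤ N ^ (1 / 2 : ℝ) := by
      have h1 : C3 ^ 2 ≤ N := ((le_max_left _ _).trans (le_max_right _ _)).trans hbig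
      have h2 := Real.rpow_le_rpow (by positivity) h1 (by norm_num : (0 : ℝ) ≤ 1 / 2)
      rwa [← Real.rpow_natCast, ← Real.rpow_mul hC3.le, Nat.cast_ofNat, mul_one_div_cancel
        (two_ne_zero), Real.rpow_one] at h2
    have hmaxN : max (G / lam) 2 ^ k ≤ N ^ c₁ := by
      rcases le_total (G / lam) 2 with h | h
      · rw [max_eq_right h]
        exact hN2k
      · rw [max_eq_left h]
        calc (G / lam) ^ k ≤ (N ^ c) ^ k := pow_le_pow_left₀ (by positivity) hcase1 _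
          _ = N ^ (c * k) := by rw [← Real.rpow_natCast, ← Real.rpow_mul hN0.le]
          _ ≤ N ^ c₁ := Real.rpow_le_rpow_of_exponent_le hN.le hc1
    rcases le_or_gt ((|b 0| + N) / N) (max (G / lam) 2 ^ k) with hR | hR
    · -- top levels
      have h1 := htop b N lam a hNC2 hlam0 (by
        refine hcase1.trans (Real.rpow_le_rpow_of_exponent_le hN.le ?_)
        have h2 : (1 : ℝ) ≤ k := by
          rw [hk]
          push_cast
          have : (0 : ℝ) ≤ κ₂ := Nat.cast_nonneg _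
          linarith
        nlinarith) (hR.trans hmaxN) ha
      have hR1 : 1 ≤ (|b 0| + N) / N := by
        rw [one_le_div hN0]
        linarith [abs_nonneg (b 0)]
      have h2 : Real.log ((|b 0| + N) / N) ≤ k * (1 + ℓ) := by
        have h3 := Real.log_le_log (by positivity) hR
        rw [Real.log_pow] at h3
        refine h3.trans (mul_le_mul_of_nonneg_left ?_ hk0.le)
        rcases le_total (G / lam) 2 with h | h
        · rw [max_eq_right h]
          have := Real.log_two_lt_d9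
          linarith
        · rw [max_eq_left h]
          have := le_abs_self (Real.log (G / lam))
          linarith
      have h3 : (1 + ℓ + Real.log ((|b 0| + N) / N)) ^ κ₁ ≤
          (1 + (k : ℝ)) ^ κ₁ * (1 + ℓ) ^ κ₁ := by
        rw [← mul_pow]
        apply pow_le_pow_left₀
        · have := Real.log_nonneg hR1
          linarith
        · linarith
      refine h1.trans (le_trans ?_ (hfinish (C2 * (1 + k) ^ κ₁) t3 (by linarith)
        ((1 + ℓ) ^ κ₁) (by positivity) (le_refl _)))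
      apply mul_le_mul_of_nonneg_right _ hlq.le
      rw [mul_assoc]
      exact mul_le_mul_of_nonneg_left h3 hC2.le
    · -- large shift
      have hCN : C3 * (max (G / lam) 1) ^ κ₂ ≤ N := by
        have h1 : max (G / lam) 1 ≤ N ^ c := max_le hcase1 (Real.one_le_rpow hN.le hc0.le)
        calc C3 * (max (G / lam) 1) ^ κ₂ ≤ N ^ (1 / 2 : ℝ) * (N ^ c) ^ κ₂ := by
              apply mul_le_mul hNC3 _ (by positivity) (by positivity)
              exact pow_le_pow_left₀ (by positivity) h1 _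
          _ = N ^ (1 / 2 + c * κ₂) := by
              rw [← Real.rpow_natCast, ← Real.rpow_mul hN0.le, ← Real.rpow_add hN0]
          _ ≤ N ^ (1 : ℝ) := Real.rpow_le_rpow_of_exponent_le hN.le (by linarith)
          _ = N := Real.rpow_one N
      have h1 := Pool.Agent.Helper62.AS.LS.crude_case r C3 κ₂ hC3 hcr b N lam a hN hlam0 ha hlam2
        k (le_of_eq hk.symm) hR hCN
      refine h1.trans (le_trans ?_ (hfinish (2 * (C3 + 1) * 2 ^ (r + 2)) t4 (by linarith) 1
        zero_le_one hpow1))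
      rw [mul_one]

theorem Lpall (hLS : S_LS) (hall : S_LSall) : S_Lpall := by
  intro r p hr hp
  obtain ⟨C, A, κ, hC, hA, hLS⟩ := hLS r hr
  obtain ⟨C', c, κ', hC', hc, hall⟩ := hall r hr
  obtain ⟨C'', hC'', h⟩ := Lp_gen r p hp (C + C') (κ + κ') (by positivity)
    (fun b N => min (A * ((|b 0| + N) * N) ^ (((r : ℝ) + 1) / 8) * (1 + Real.log N))
      (N ^ (((r : ℝ) + 1) / 2 - c)))
    (fun b N hN => by
      have hlN : 0 < Real.log N := Real.log_pos hN
      have hN0 : 0 < N := by linarith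
      have : 0 < (|b 0| + N) * N := by positivity
      exact lt_min (by positivity) (by positivity))
    (fun b N lam a hN hlam ha => by
      have hN0 : 0 < N := by linarith
      have hlN : 0 < Real.log N := Real.log_pos hN
      have hBN : 0 < (|b 0| + N) * N := by positivity
      have hlam0 : 0 < lam := lt_of_lt_of_le (lt_min (by positivity) (by positivity)) hlam
      set ℓ : ℝ := |Real.log (N ^ (((r : ℝ) + 1) / 2) / lam)| with hℓ
      have hℓ0 : 0 ≤ ℓ := abs_nonneg _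
      have hlq : 0 < lam ^ (-(2 + 2 / ((r : ℝ) + 1))) := Real.rpow_pos_of_pos hlam0 _
      rcases min_le_iff.mp hlam with h1 | h1
      · refine (hLS b N lam a hN h1 ha).trans ?_
        apply mul_le_mul_of_nonneg_right _ hlq.le
        apply mul_le_mul (by linarith) _ (by positivity) (by positivity)
        exact pow_le_pow_right₀ (by linarith) (by omega)
      · refine (hall b N lam a hN h1 ha).trans ?_
        apply mul_le_mul_of_nonneg_right _ hlq.le
        apply mul_le_mul (by linarith) _ (by positivity) (by positivity)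
        exact pow_le_pow_right₀ (by linarith) (by omega))
  exact ⟨C'', A, c, hC'', hA, hc, h⟩

end Pool.Agent.Helper62.AS.LSall
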