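import Pool.Agent.Helper64.AS.Defs

/-!
# From level sets to the `L^p` estimate for the large values
-/

set_option autoImplicit false
set_option linter.dupNamespace false

open Finset MeasureTheory

namespace Pool.Agent.Helper62.AS.Lp

open Pool.Agent.Helper64.AS

/-- Summation over dyadic levels. -/
lemma dyadic {α : Type*} [MeasurableSpace α] (μ : Measure α) (Ω : Set α) (hΩ : MeasurableSet Ω)
    (hfin : μ Ω ≠ ⊤) (f : α → ℝ) (hf : Measurable f) (hf0 : ∀ x, 0 ≤ f x) (p q l₀ B₀ K : ℝ)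
    (hq : 0 ≤ q) (hpq : q < p) (hK : 0 ≤ K)
    (h : ∀ lam, l₀ ≤ lam → lam ≤ B₀ → (μ {x ∈ Ω | lam < f x}).toReal ≤ K * lam ^ (-q)) :
    ∀ (n : ℕ) (B : ℝ), 0 < B → B < 2 ^ n * l₀ → B ≤ B₀ →
      ∫ x in {x ∈ Ω | l₀ < f x ∧ f x ≤ B}, f x ^ p ∂μ ≤
        2 ^ q / (1 - 2 ^ (-(p - q))) * K * B ^ (p - q) := by
  have hr0 : (0 : ℝ) < 2 ^ (-(p - q)) := Real.rpow_pos_of_pos (by norm_num) _
  have hr1 : (2 : ℝ) ^ (-(p - q)) < 1 :=
    Real.rpow_lt_one_of_one_lt_of_neg (by norm_num) (by linarith)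
  have h1r : (0 : ℝ) < 1 - 2 ^ (-(p - q)) := by linarith
  have hC0 : (0 : ℝ) < 2 ^ q / (1 - 2 ^ (-(p - q))) :=
    div_pos (Real.rpow_pos_of_pos (by norm_num) _) h1r
  have hmeas : ∀ s t : ℝ, MeasurableSet {x ∈ Ω | s < f x ∧ f x ≤ t} := fun s t =>
    hΩ.inter ((measurableSet_lt measurable_const hf).inter (measurableSet_le hf measurable_const))
  have hint : ∀ s t : ℝ, IntegrableOn (fun x => f x ^ p) {x ∈ Ω | s < f x ∧ f x ≤ t} μ := by
    intro s t
    have hfin' : μ {x ∈ Ω | s < f x ∧ f x ≤ t} < ⊤ :=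
      lt_of_le_of_lt (measure_mono fun x hx => hx.1) (lt_top_iff_ne_top.mpr hfin)
    refine Measure.integrableOn_of_bounded (M := t ^ p) hfin'.ne
      (hf.pow_const p).aestronglyMeasurable ?_
    refine (ae_restrict_iff' (hmeas s t)).mpr (Filter.Eventually.of_forall fun x hx => ?_)
    rw [Real.norm_eq_abs, abs_of_nonneg (Real.rpow_nonneg (hf0 x) p)]
    exact Real.rpow_le_rpow (hf0 x) hx.2.2 (by linarith)
  intro n
  induction n with
  | zero =>
    intro B hB hBα _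
    have : {x ∈ Ω | l₀ < f x ∧ f x ≤ B} = ∅ := by
      ext x
      simp only [Set.mem_ofPred_eq, Set.mem_empty_iff_false, iff_false]
      rintro ⟨-, h1, h2⟩
      rw [pow_zero, one_mul] at hBα
      linarith
    rw [this, Measure.restrict_empty, integral_zero_measure]
    have := Real.rpow_nonneg hB.le (p - q)
    positivity
  | succ n ih =>
    intro B hB hBα hBB
    have hBpow := Real.rpow_nonneg hB.le (p - q)
    rcases lt_or_ge B l₀ with hlt | hge
    · have : {x ∈ Ω | l₀ < f x ∧ f x ≤ B} = ∅ := by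
        ext x
        simp only [Set.mem_ofPred_eq, Set.mem_empty_iff_false, iff_false]
        rintro ⟨-, h1, h2⟩
        linarith
      rw [this, Measure.restrict_empty, integral_zero_measure]
      positivity
    · have hB2 : 0 < B / 2 := by linarith
      have ih' := ih (B / 2) hB2 (by rw [pow_succ] at hBα; linarith) (by linarith)
      set T := {x ∈ Ω | max l₀ (B / 2) < f x ∧ f x ≤ B} with hT
      have hsplit : {x ∈ Ω | l₀ < f x ∧ f x ≤ B} = {x ∈ Ω | l₀ < f x ∧ f x ≤ B / 2} ∪ T := by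
        ext x
        simp only [hT, Set.mem_ofPred_eq, Set.mem_union, max_lt_iff]
        constructor
        · rintro ⟨h1, h2, h3⟩
          rcases le_or_gt (f x) (B / 2) with h4 | h4
          · exact Or.inl ⟨h1, h2, h4⟩
          · exact Or.inr ⟨h1, ⟨h2, h4⟩, h3⟩
        · rintro (⟨h1, h2, h3⟩ | ⟨h1, ⟨h2, h4⟩, h3⟩)
          · exact ⟨h1, h2, by linarith⟩
          · exact ⟨h1, h2, h3⟩
      have hdisj : Disjoint {x ∈ Ω | l₀ < f x ∧ f x ≤ B / 2} T := by
        rw [Set.disjoint_left]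
        rintro x ⟨-, -, h3⟩ ⟨-, h4, -⟩
        have := lt_of_le_of_lt (le_max_right l₀ (B / 2)) h4
        linarith
      rw [hsplit, setIntegral_union hdisj (hmeas _ _) (hint _ _) (hint _ _)]
      have hTfin : μ T < ⊤ :=
        lt_of_le_of_lt (measure_mono fun x hx => hx.1) (lt_top_iff_ne_top.mpr hfin)
      have hcard : (μ T).toReal ≤ K * (B / 2) ^ (-q) := by
        have h1 := h (max l₀ (B / 2)) (le_max_left _ _) (max_le (by linarith) (by linarith))
        have h2 : (μ T).toReal ≤ (μ {x ∈ Ω | max l₀ (B / 2) < f x}).toReal := by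
          refine ENNReal.toReal_mono ?_ (measure_mono fun x hx => ⟨hx.1, hx.2.1⟩)
          exact (lt_of_le_of_lt (measure_mono fun x hx => hx.1)
            (lt_top_iff_ne_top.mpr hfin)).ne
        have h3 : (max l₀ (B / 2)) ^ (-q) ≤ (B / 2) ^ (-q) :=
          Real.rpow_le_rpow_of_nonpos hB2 (le_max_right _ _) (by linarith)
        calc (μ T).toReal ≤ (μ {x ∈ Ω | max l₀ (B / 2) < f x}).toReal := h2
          _ ≤ K * (max l₀ (B / 2)) ^ (-q) := h1
          _ ≤ K * (B / 2) ^ (-q) := mul_le_mul_of_nonneg_left h3 hK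
      have hTsum : ∫ x in T, f x ^ p ∂μ ≤ B ^ p * (K * (B / 2) ^ (-q)) := by
        have h1 := norm_setIntegral_le_of_norm_le_const (f := fun x => f x ^ p) (C := B ^ p) hTfin
          (fun x hx => by
            rw [Real.norm_eq_abs, abs_of_nonneg (Real.rpow_nonneg (hf0 x) p)]
            exact Real.rpow_le_rpow (hf0 x) hx.2.2 (by linarith))
        refine (le_trans (le_abs_self _) h1).trans ?_
        exact mul_le_mul_of_nonneg_left hcard (Real.rpow_nonneg hB.le _)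
      have e1 : (B / 2) ^ (p - q) = B ^ (p - q) * 2 ^ (-(p - q)) := by
        rw [Real.div_rpow hB.le (by norm_num), Real.rpow_neg (by norm_num), div_eq_mul_inv]
      have e2 : B ^ p * (K * (B / 2) ^ (-q)) = K * B ^ (p - q) * 2 ^ q := by
        rw [Real.div_rpow hB.le (by norm_num), Real.rpow_neg (by norm_num : (0 : ℝ) ≤ 2),
          Real.rpow_neg hB.le, Real.rpow_sub hB, div_inv_eq_mul]
        field_simp
      rw [e2] at hTsum
      rw [e1] at ih'
      refine (add_le_add ih' hTsum).trans (le_of_eq ?_)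
      field_simp
      ring

lemma dyadic' {α : Type*} [MeasurableSpace α] (μ : Measure α) (Ω : Set α) (hΩ : MeasurableSet Ω)
    (hfin : μ Ω ≠ ⊤) (f : α → ℝ) (hf : Measurable f) (hf0 : ∀ x, 0 ≤ f x) (p q l₀ B₀ K : ℝ)
    (hl : 0 < l₀) (hB₀ : 0 < B₀) (hq : 0 ≤ q) (hpq : q < p) (hK : 0 ≤ K)
    (hfB : ∀ x, f x ≤ B₀)
    (h : ∀ lam, l₀ ≤ lam → lam ≤ B₀ → (μ {x ∈ Ω | lam < f x}).toReal ≤ K * lam ^ (-q)) :
      ∫ x in {x ∈ Ω | l₀ < f x}, f x ^ p ∂μ ≤
        2 ^ q / (1 - 2 ^ (-(p - q))) * K * B₀ ^ (p - q) := by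
  obtain ⟨n, hn⟩ := pow_unbounded_of_one_lt (B₀ / l₀) (one_lt_two)
  rw [div_lt_iff₀ hl] at hn
  have h1 := dyadic μ Ω hΩ hfin f hf hf0 p q l₀ B₀ K hq hpq hK h n B₀ hB₀ hn (le_refl _)
  have h2 : {x ∈ Ω | l₀ < f x} = {x ∈ Ω | l₀ < f x ∧ f x ≤ B₀} := by
    ext x
    simp only [Set.mem_ofPred_eq]
    exact ⟨fun hx => ⟨hx.1, hx.2, hfB x⟩, fun hx => ⟨hx.1, hx.2.1⟩⟩
  rw [h2]
  exact h1

lemma FF_continuous (r : ℕ) (S : Finset (ℤ × (Fin r → ℤ))) (a : ℤ × (Fin r → ℤ) → ℂ) :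
    Continuous fun z : ℝ × (Fin r → ℝ) => FF r S a z.1 z.2 := by
  unfold FF
  refine continuous_finsetSum _ fun ξ _ => continuous_const.mul ?_
  refine Complex.continuous_exp.comp ((Complex.continuous_ofReal.comp ?_).mul continuous_const)
  refine Continuous.sub (continuous_finsetSum _ fun l _ => ?_) (continuous_fst.mul continuous_const)
  exact ((continuous_apply l).comp continuous_snd).mul continuous_const

lemma cube_measurable (r : ℕ) : MeasurableSet (cube r) := by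
  unfold cube
  exact measurableSet_Icc.prod measurableSet_Icc

lemma cube_finite (r : ℕ) : volume (cube r) ≠ ⊤ := by
  have : IsCompact (cube r) := by
    unfold cube
    exact isCompact_Icc.prod isCompact_Icc
  exact this.measure_lt_top.ne

lemma card_Icc_le (b N : ℝ) (hN : 0 ≤ N) : ((Finset.Icc ⌈b⌉ ⌊b + N⌋).card : ℝ) ≤ N + 1 := by
  rw [Int.card_Icc]
  have h1 : (⌊b + N⌋ : ℝ) ≤ b + N := Int.floor_le _
  have h2 : b ≤ (⌈b⌉ : ℝ) := Int.le_ceil _
  rcases le_total (⌊b + N⌋ + 1 - ⌈b⌉) 0 with h | h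
  · rw [Int.toNat_of_nonpos h]
    push_cast
    linarith
  · have h3 : (((⌊b + N⌋ + 1 - ⌈b⌉).toNat : ℤ) : ℝ) = ((⌊b + N⌋ + 1 - ⌈b⌉ : ℤ) : ℝ) := by
      rw [Int.toNat_of_nonneg h]
    rw [Int.cast_natCast] at h3
    rw [h3]
    push_cast
    linarith

lemma card_box_le (r : ℕ) (b : Fin (r + 1) → ℝ) (N : ℝ) (hN : 1 < N) :
    ((box r b N).card : ℝ) ≤ (2 * N) ^ (r + 1) := by
  unfold Pool.Agent.Helper64.AS.box
  rw [card_product, Fintype.card_piFinset, Nat.cast_mul, Nat.cast_prod, pow_succ']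
  have h0 : (0 : ℝ) ≤ 2 * N := by linarith
  apply mul_le_mul
  · exact (card_Icc_le _ _ (by linarith)).trans (by linarith)
  · calc ∏ l : Fin r, ((Finset.Icc ⌈b l.succ⌉ ⌊b l.succ + N⌋).card : ℝ) ≤
        ∏ _l : Fin r, (2 * N) := by
          refine prod_le_prod (fun _ _ => Nat.cast_nonneg _) fun l _ => ?_
          exact (card_Icc_le _ _ (by linarith)).trans (by linarith)
      _ = _ := by simp
  · exact prod_nonneg fun _ _ => Nat.cast_nonneg _
  · exact h0

lemma FF_norm_le (r : ℕ) (b : Fin (r + 1) → ℝ) (N : ℝ) (hN : 1 < N)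
    (a : ℤ × (Fin r → ℤ) → ℂ) (ha : ∑ ξ ∈ box r b N, ‖a ξ‖ ^ 2 ≤ 1) (t : ℝ) (x : Fin r → ℝ) :
    ‖FF r (box r b N) a t x‖ ≤ (2 * N) ^ (((r : ℝ) + 1) / 2) := by
  have h0 : (0 : ℝ) ≤ 2 * N := by linarith
  have h1 : ‖FF r (box r b N) a t x‖ ≤ ∑ ξ ∈ box r b N, ‖a ξ‖ := by
    unfold FF
    refine (norm_sum_le _ _).trans (sum_le_sum fun ξ _ => ?_)
    rw [norm_mul, Complex.norm_exp_ofReal_mul_I, mul_one]
  have h2 : (∑ ξ ∈ box r b N, ‖a ξ‖) ^ 2 ≤ (2 * N) ^ (r + 1) := by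
    have h3 := sq_sum_le_card_mul_sum_sq (s := box r b N) (f := fun ξ => ‖a ξ‖)
    refine h3.trans ?_
    calc ((box r b N).card : ℝ) * ∑ ξ ∈ box r b N, ‖a ξ‖ ^ 2 ≤ ((box r b N).card : ℝ) * 1 :=
          mul_le_mul_of_nonneg_left ha (Nat.cast_nonneg _)
      _ ≤ _ := by
          rw [mul_one]
          exact card_box_le r b N hN
  have h3 : ((2 * N) ^ (((r : ℝ) + 1) / 2)) ^ 2 = (2 * N) ^ (r + 1) := by
    rw [← Real.rpow_natCast, ← Real.rpow_mul h0, ← Real.rpow_natCast]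
    congr 1
    push_cast
    ring
  rw [← h3] at h2
  exact h1.trans (le_of_sq_le_sq h2 (Real.rpow_nonneg h0 _))

/-- The logarithmic factor is absorbed by a small power. -/
lemma log_absorb (κ : ℕ) (ε y₀ : ℝ) (hε : 0 < ε) (hy₀ : 0 < y₀) :
    ∃ c : ℝ, 0 < c ∧ ∀ y : ℝ, y₀ ≤ y → (1 + |Real.log y|) ^ κ ≤ c * (y / y₀) ^ ε := by
  set d : ℝ := ε / (κ + 1) with hd
  have hd0 : 0 < d := by positivity
  refine ⟨((1 + |Real.log y₀|) * (1 + 1 / d)) ^ κ, by positivity, fun y hy => ?_⟩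
  have hy0 : 0 < y := lt_of_lt_of_le hy₀ hy
  have hY : 1 ≤ y / y₀ := (one_le_div hy₀).mpr hy
  have h1 : |Real.log y| ≤ Real.log (y / y₀) + |Real.log y₀| := by
    have h2 : Real.log y = Real.log (y / y₀) + Real.log y₀ := by
      rw [← Real.log_mul (by positivity) hy₀.ne']
      congr 1
      field_simp
    rw [h2]
    refine (abs_add_le _ _).trans ?_
    rw [abs_of_nonneg (Real.log_nonneg hY)]
  have h3 : Real.log (y / y₀) ≤ (y / y₀) ^ d / d := Real.log_le_rpow_div (by positivity) hd0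
  have h4 : 1 ≤ (y / y₀) ^ d := Real.one_le_rpow hY hd0.le
  have h5 : 1 + |Real.log y| ≤ (1 + |Real.log y₀|) * (1 + 1 / d) * (y / y₀) ^ d := by
    have h6 : 0 ≤ |Real.log y₀| := abs_nonneg _
    have h7 : (y / y₀) ^ d / d = (1 / d) * (y / y₀) ^ d := by ring
    rw [h7] at h3
    have h8 : 0 ≤ (1 / d) * (y / y₀) ^ d := by positivity
    calc 1 + |Real.log y| ≤ 1 + ((1 / d) * (y / y₀) ^ d + |Real.log y₀|) := by linarith
      _ ≤ (y / y₀) ^ d + (1 / d) * (y / y₀) ^ d + |Real.log y₀| * (y / y₀) ^ d +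
          |Real.log y₀| * ((1 / d) * (y / y₀) ^ d) := by
          have h9 : |Real.log y₀| ≤ |Real.log y₀| * (y / y₀) ^ d := le_mul_of_one_le_right h6 h4
          have h10 : 0 ≤ |Real.log y₀| * ((1 / d) * (y / y₀) ^ d) := mul_nonneg h6 h8
          linarith
      _ = _ := by ring
  calc (1 + |Real.log y|) ^ κ ≤ ((1 + |Real.log y₀|) * (1 + 1 / d) * (y / y₀) ^ d) ^ κ :=
        pow_le_pow_left₀ (by positivity) h5 κ
    _ = ((1 + |Real.log y₀|) * (1 + 1 / d)) ^ κ * ((y / y₀) ^ d) ^ κ := by rw [mul_pow]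
    _ ≤ ((1 + |Real.log y₀|) * (1 + 1 / d)) ^ κ * (y / y₀) ^ ε := by
        apply mul_le_mul_of_nonneg_left _ (by positivity)
        rw [← Real.rpow_natCast, ← Real.rpow_mul (by positivity)]
        apply Real.rpow_le_rpow_of_exponent_le hY
        rw [hd, div_mul_eq_mul_div, div_le_iff₀ (by positivity)]
        nlinarith

theorem Lp (hLS : S_LS) : S_Lp := by
  intro r p hr hp
  obtain ⟨C, A, κ, hC, hA, hLS⟩ := hLS r hr
  set q : ℝ := 2 + 2 / ((r : ℝ) + 1) with hq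
  have hr1 : (0 : ℝ) < (r : ℝ) + 1 := by positivity
  have hq0 : 0 < q := by positivity
  have hp0 : 0 < p := by linarith
  set ε : ℝ := (p - q) / 2 with hε
  have hε0 : 0 < ε := by rw [hε]; linarith
  set y₀ : ℝ := 2 ^ (-(((r : ℝ) + 1) / 2)) with hy₀
  have hy₀0 : 0 < y₀ := Real.rpow_pos_of_pos (by norm_num) _
  obtain ⟨c, hc, hlog⟩ := log_absorb κ ε y₀ hε0 hy₀0
  set E : ℝ := 2 ^ (q + ε) / (1 - 2 ^ (-(p - (q + ε)))) * (C * c) with hE
  have hqε : q + ε < p := by rw [hε]; linarith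
  have hE0 : 0 < E := by
    have hr1 : (2 : ℝ) ^ (-(p - (q + ε))) < 1 :=
      Real.rpow_lt_one_of_one_lt_of_neg (by norm_num) (by linarith)
    have : (0 : ℝ) < 2 ^ (q + ε) / (1 - 2 ^ (-(p - (q + ε)))) :=
      div_pos (Real.rpow_pos_of_pos (by norm_num) _) (by linarith)
    positivity
  -- normalised statement
  have hnorm : ∀ (b : Fin (r + 1) → ℝ) (N : ℝ) (a : ℤ × (Fin r → ℤ) → ℂ), 1 < N →
      ∑ ξ ∈ box r b N, ‖a ξ‖ ^ 2 ≤ 1 →
      ∫ z in {z ∈ cube r | A * ((|b 0| + N) * N) ^ (((r : ℝ) + 1) / 8) * (1 + Real.log N) <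
          ‖FF r (box r b N) a z.1 z.2‖}, ‖FF r (box r b N) a z.1 z.2‖ ^ p ≤
        E * ((2 * N) ^ (((r : ℝ) + 1) / 2)) ^ (p - q) := by
    intro b N a hN ha
    have hN0 : 0 < N := by linarith
    have hlN : 0 < Real.log N := Real.log_pos hN
    set Lm : ℝ := (2 * N) ^ (((r : ℝ) + 1) / 2) with hLm
    have hLm0 : 0 < Lm := by positivity
    have hl0 : 0 < A * ((|b 0| + N) * N) ^ (((r : ℝ) + 1) / 8) * (1 + Real.log N) := by
      have : 0 < (|b 0| + N) * N := by positivity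
      positivity
    have h1 := dyadic' volume (cube r) (cube_measurable r) (cube_finite r)
      (fun z => ‖FF r (box r b N) a z.1 z.2‖) (FF_continuous r _ a).norm.measurable
      (fun z => norm_nonneg _) p (q + ε)
      (A * ((|b 0| + N) * N) ^ (((r : ℝ) + 1) / 8) * (1 + Real.log N)) Lm (C * c * Lm ^ ε)
      hl0 hLm0 (by positivity) hqε (by positivity)
      (fun z => FF_norm_le r b N hN a ha z.1 z.2) (by
        intro lam h2 h3
        have hlam : 0 < lam := lt_of_lt_of_le hl0 h2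
        have h4 := hLS b N lam a hN h2 ha
        refine h4.trans ?_
        have h5 : y₀ ≤ N ^ (((r : ℝ) + 1) / 2) / lam := by
          rw [le_div_iff₀ hlam]
          calc y₀ * lam ≤ y₀ * Lm := mul_le_mul_of_nonneg_left h3 hy₀0.le
            _ = N ^ (((r : ℝ) + 1) / 2) := by
              rw [hLm, hy₀, Real.mul_rpow (by norm_num) hN0.le, ← mul_assoc,
                ← Real.rpow_add (by norm_num), neg_add_cancel, Real.rpow_zero, one_mul]
        have h6 := hlog _ h5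
        have h7 : N ^ (((r : ℝ) + 1) / 2) / lam / y₀ = Lm / lam := by
          rw [hLm, hy₀, Real.mul_rpow (by norm_num) hN0.le, Real.rpow_neg (by norm_num)]
          field_simp
        rw [h7] at h6
        calc C * (1 + |Real.log (N ^ (((r : ℝ) + 1) / 2) / lam)|) ^ κ * lam ^ (-q) ≤
            C * (c * (Lm / lam) ^ ε) * lam ^ (-q) := by
              apply mul_le_mul_of_nonneg_right _ (Real.rpow_nonneg hlam.le _)
              exact mul_le_mul_of_nonneg_left h6 hC.le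
          _ = C * c * Lm ^ ε * lam ^ (-(q + ε)) := by
              have e : ∀ q' : ℝ, lam ^ (-(q' + ε)) = lam ^ (-q') * (lam ^ ε)⁻¹ := by
                intro q'
                rw [neg_add, Real.rpow_add hlam, Real.rpow_neg hlam.le ε]
              rw [e q, Real.div_rpow hLm0.le hlam.le]
              ring)
    refine h1.trans (le_of_eq ?_)
    rw [hE]
    have h8 : Lm ^ (p - q) = Lm ^ ε * Lm ^ (p - (q + ε)) := by
      rw [← Real.rpow_add hLm0]
      congr 1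
      ring
    rw [h8]
    ring
  refine ⟨E ^ (1 / p) * 2 ^ (((r : ℝ) + 1) / 2 - ((r : ℝ) + 2) / p), A, by positivity, hA, ?_⟩
  intro b N a hN
  have hN0 : 0 < N := by linarith
  set s : ℝ := Real.sqrt (∑ ξ ∈ box r b N, ‖a ξ‖ ^ 2) with hs
  have hs0 : 0 ≤ s := Real.sqrt_nonneg _
  set T : ℝ := A * ((|b 0| + N) * N) ^ (((r : ℝ) + 1) / 8) * (1 + Real.log N) with hT
  rcases hs0.eq_or_lt with h0 | hpos
  · -- all coefficients vanish
    have hsum0 : ∑ ξ ∈ box r b N, ‖a ξ‖ ^ 2 = 0 := by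
      have h1 : 0 ≤ ∑ ξ ∈ box r b N, ‖a ξ‖ ^ 2 := sum_nonneg fun _ _ => sq_nonneg _
      exact (Real.sqrt_eq_zero h1).mp h0.symm
    have hz : ∀ z : ℝ × (Fin r → ℝ), FF r (box r b N) a z.1 z.2 = 0 := by
      intro z
      unfold FF
      refine sum_eq_zero fun ξ hξ => ?_
      have h2 := (sum_eq_zero_iff_of_nonneg fun ξ _ => sq_nonneg ‖a ξ‖).mp hsum0 ξ hξ
      have h3 : a ξ = 0 := by simpa using h2
      rw [h3, zero_mul]
    have hset : {z ∈ cube r | T * s < ‖FF r (box r b N) a z.1 z.2‖} = ∅ := by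
      ext z
      simp [hz z, ← h0]
    rw [hset, Measure.restrict_empty, integral_zero_measure, ← h0, mul_zero,
      Real.zero_rpow (by positivity)]
  · have hs2 : s ^ 2 = ∑ ξ ∈ box r b N, ‖a ξ‖ ^ 2 :=
      Real.sq_sqrt (sum_nonneg fun _ _ => sq_nonneg _)
    have hFs : ∀ z : ℝ × (Fin r → ℝ), FF r (box r b N) (fun ξ => ((s⁻¹ : ℝ) : ℂ) * a ξ) z.1 z.2 =
        ((s⁻¹ : ℝ) : ℂ) * FF r (box r b N) a z.1 z.2 := by
      intro z
      unfold FF
      rw [mul_sum]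
      exact sum_congr rfl fun ξ _ => by ring
    have hnF : ∀ z : ℝ × (Fin r → ℝ), ‖FF r (box r b N) (fun ξ => ((s⁻¹ : ℝ) : ℂ) * a ξ) z.1 z.2‖ =
        s⁻¹ * ‖FF r (box r b N) a z.1 z.2‖ := by
      intro z
      rw [hFs, norm_mul, Complex.norm_real, Real.norm_eq_abs, abs_of_pos (inv_pos.mpr hpos)]
    have hns : ∑ ξ ∈ box r b N, ‖((s⁻¹ : ℝ) : ℂ) * a ξ‖ ^ 2 ≤ 1 := by
      have h1 : ∑ ξ ∈ box r b N, ‖((s⁻¹ : ℝ) : ℂ) * a ξ‖ ^ 2 = (s⁻¹) ^ 2 * s ^ 2 := by
        rw [hs2, mul_sum]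
        refine sum_congr rfl fun ξ _ => ?_
        rw [norm_mul, mul_pow, Complex.norm_real, Real.norm_eq_abs, sq_abs]
      rw [h1, ← mul_pow, inv_mul_cancel₀ hpos.ne', one_pow]
    have h2 := hnorm b N _ hN hns
    have hset : {z ∈ cube r | T < ‖FF r (box r b N) (fun ξ => ((s⁻¹ : ℝ) : ℂ) * a ξ) z.1 z.2‖} =
        {z ∈ cube r | T * s < ‖FF r (box r b N) a z.1 z.2‖} := by
      ext z
      simp only [Set.mem_ofPred_eq]
      rw [hnF, ← div_eq_inv_mul, lt_div_iff₀ hpos]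
    rw [hset] at h2
    have hint : ∫ z in {z ∈ cube r | T * s < ‖FF r (box r b N) a z.1 z.2‖},
        ‖FF r (box r b N) (fun ξ => ((s⁻¹ : ℝ) : ℂ) * a ξ) z.1 z.2‖ ^ p =
        (s⁻¹) ^ p * ∫ z in {z ∈ cube r | T * s < ‖FF r (box r b N) a z.1 z.2‖},
          ‖FF r (box r b N) a z.1 z.2‖ ^ p := by
      rw [← integral_const_mul]
      congr 1
      funext z
      rw [hnF, Real.mul_rpow (inv_pos.mpr hpos).le (norm_nonneg _)]
    rw [hint] at h2
    set I : ℝ := ∫ z in {z ∈ cube r | T * s < ‖FF r (box r b N) a z.1 z.2‖},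
          ‖FF r (box r b N) a z.1 z.2‖ ^ p with hI
    have hI0 : 0 ≤ I := integral_nonneg fun z => Real.rpow_nonneg (norm_nonneg _) _
    have hsp : 0 < s ^ p := Real.rpow_pos_of_pos hpos p
    have h3 : I ≤ (E * ((2 * N) ^ (((r : ℝ) + 1) / 2)) ^ (p - q)) * s ^ p := by
      rw [Real.inv_rpow hpos.le, inv_mul_le_iff₀ hsp] at h2
      linarith
    have h2N : (0 : ℝ) < 2 * N := by linarith
    calc I ^ (1 / p) ≤ ((E * ((2 * N) ^ (((r : ℝ) + 1) / 2)) ^ (p - q)) * s ^ p) ^ (1 / p) :=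
          Real.rpow_le_rpow hI0 h3 (by positivity)
      _ = E ^ (1 / p) * (((2 * N) ^ (((r : ℝ) + 1) / 2)) ^ (p - q)) ^ (1 / p) *
          (s ^ p) ^ (1 / p) := by
          rw [Real.mul_rpow (by positivity) hsp.le, Real.mul_rpow hE0.le (by positivity)]
      _ = E ^ (1 / p) * (2 * N) ^ (((r : ℝ) + 1) / 2 - ((r : ℝ) + 2) / p) * s := by
          rw [← Real.rpow_mul h2N.le, ← Real.rpow_mul h2N.le, ← Real.rpow_mul hpos.le,
            mul_one_div_cancel hp0.ne', Real.rpow_one]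
          congr 3
          rw [hq]
          field_simp
          ring
      _ = _ := by
          rw [Real.mul_rpow (by norm_num) hN0.le]
          ring

end Pool.Agent.Helper62.AS.Lp
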