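import Pool.Agent.Helper62.AS.Dom

/-!
# The path lemma (helper62)
-/

set_option autoImplicit false

namespace Pool.Agent.Helper62.AS

open MeasureTheory Finset

variable {n : ℕ}

theorem min_eq_mul_exp {x y : ℝ} (hx : 0 < x) (hy : 0 < y) :
    min x y = y * Real.exp (-(max 0 (Real.log y - Real.log x))) := by
  rcases le_total x y with h | h
  · have h1 : Real.log x ≤ Real.log y := Real.log_le_log hx h
    rw [min_eq_left h, max_eq_right (by linarith), neg_sub, Real.exp_sub, Real.exp_log hx,
      Real.exp_log hy]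
    field_simp
  · have h1 : Real.log y ≤ Real.log x := Real.log_le_log hy h
    rw [min_eq_right h, max_eq_left (by linarith)]
    simp

/-- new box minus old box -/
theorem volume_step (b b' : Fin n → ℝ) (hb : ∀ k, 0 < b k) (hb' : ∀ k, 0 < b' k) :
    volume (box b' \ box b) ≤
      ENNReal.ofReal ((∏ k, b' k) * ∑ k, max 0 (Real.log (b' k) - Real.log (b k))) := by
  set c : Fin n → ℝ := fun k => min (b k) (b' k) with hc
  have hc0 : ∀ k, 0 ≤ c k := fun k => le_min (hb k).le (hb' k).le
  have hsub : box b' \ box b ⊆ box b' \ box c := by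
    rintro x ⟨h1, h2⟩
    exact ⟨h1, fun h => h2 fun k => ⟨(h k).1, (h k).2.trans (min_le_left _ _)⟩⟩
  refine (measure_mono hsub).trans ?_
  have hcb : box c ⊆ box b' := fun x h k => ⟨(h k).1, (h k).2.trans (min_le_right _ _)⟩
  rw [measure_sdiff hcb (measurableSet_box c).nullMeasurableSet
    (by rw [volume_box hc0]; exact ENNReal.ofReal_ne_top),
    volume_box hc0, volume_box fun k => (hb' k).le,
    ← ENNReal.ofReal_sub _ (prod_nonneg fun k _ => hc0 k)]
  apply ENNReal.ofReal_le_ofReal
  set P := ∑ k, max 0 (Real.log (b' k) - Real.log (b k)) with hP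
  have h1 : ∏ k, c k = (∏ k, b' k) * Real.exp (-P) := by
    rw [hP, ← sum_neg_distrib, Real.exp_sum, ← prod_mul_distrib]
    exact prod_congr rfl fun k _ => min_eq_mul_exp (hb k) (hb' k)
  have h2 : 0 ≤ ∏ k, b' k := prod_nonneg fun k _ => (hb' k).le
  have h3 := Real.add_one_le_exp (-P)
  rw [h1]
  nlinarith

/-- **Path lemma.** -/
theorem volume_path (b : ℕ → Fin n → ℝ) (V : ℝ) (S : ℕ) (hb : ∀ s ≤ S, ∀ k, 0 < b s k)
    (hV : ∀ s ≤ S, ∏ k, b s k ≤ V) :
    volume (⋃ s ∈ range (S + 1), box (b s)) ≤
      ENNReal.ofReal (V * (1 + ∑ s ∈ range S, ∑ k,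
        max 0 (Real.log (b (s + 1) k) - Real.log (b s k)))) := by
  have hV0 : 0 ≤ V := le_trans (prod_nonneg fun k _ => (hb 0 (Nat.zero_le _) k).le)
    (hV 0 (Nat.zero_le _))
  induction S with
  | zero =>
    simp only [zero_add, range_one, mem_singleton, Set.iUnion_iUnion_eq_left, range_zero,
      sum_empty, add_zero, mul_one]
    rw [volume_box fun k => (hb 0 le_rfl k).le]
    exact ENNReal.ofReal_le_ofReal (hV 0 le_rfl)
  | succ S ih =>
    have ih' := ih (fun s hs k => hb s (by omega) k) (fun s hs => hV s (by omega))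
    have hsub : (⋃ s ∈ range (S + 1 + 1), box (b s)) ⊆
        (⋃ s ∈ range (S + 1), box (b s)) ∪ (box (b (S + 1)) \ box (b S)) := by
      intro x hx
      simp only [Set.mem_iUnion, mem_range, exists_prop] at hx
      obtain ⟨s, hs, hx⟩ := hx
      rcases Nat.lt_or_ge s (S + 1) with h | h
      · left
        simp only [Set.mem_iUnion, mem_range, exists_prop]
        exact ⟨s, h, hx⟩
      · have hs' : s = S + 1 := by omega
        subst hs'
        by_cases hxS : x ∈ box (b S)
        · left
          simp only [Set.mem_iUnion, mem_range, exists_prop]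
          exact ⟨S, by omega, hxS⟩
        · right
          exact ⟨hx, hxS⟩
    refine (measure_mono hsub).trans ((measure_union_le _ _).trans ?_)
    have hstep := volume_step (b S) (b (S + 1)) (hb S (by omega)) (hb (S + 1) le_rfl)
    have hq : 0 ≤ ∑ k, max 0 (Real.log (b (S + 1) k) - Real.log (b S k)) :=
      sum_nonneg fun k _ => le_max_left _ _
    have hq' : 0 ≤ ∑ s ∈ range S, ∑ k, max 0 (Real.log (b (s + 1) k) - Real.log (b s k)) :=
      sum_nonneg fun s _ => sum_nonneg fun k _ => le_max_left _ _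
    rw [sum_range_succ]
    calc _ ≤ ENNReal.ofReal (V * (1 + ∑ s ∈ range S, ∑ k,
              max 0 (Real.log (b (s + 1) k) - Real.log (b s k)))) +
            ENNReal.ofReal (V * ∑ k, max 0 (Real.log (b (S + 1) k) - Real.log (b S k))) := by
          refine add_le_add ih' (hstep.trans (ENNReal.ofReal_le_ofReal ?_))
          exact mul_le_mul_of_nonneg_right (hV (S + 1) le_rfl) hq
      _ = _ := by
          rw [← ENNReal.ofReal_add (by positivity) (by positivity)]
          congr 1
          ring

/-- rows: the union over finitely many paths -/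
theorem volume_rows {ι : Type*} [Fintype ι] (S : ι → ℕ) (b : ι → ℕ → Fin n → ℝ) (V : ι → ℝ)
    (hb : ∀ i, ∀ s ≤ S i, ∀ k, 0 < b i s k) (hV : ∀ i, ∀ s ≤ S i, ∏ k, b i s k ≤ V i) :
    volume (⋃ i, ⋃ s ∈ range (S i + 1), box (b i s)) ≤
      ENNReal.ofReal (∑ i, V i * (1 + ∑ s ∈ range (S i), ∑ k,
        max 0 (Real.log (b i (s + 1) k) - Real.log (b i s k)))) := by
  have hV0 : ∀ i, 0 ≤ V i := fun i => le_trans
    (prod_nonneg fun k _ => (hb i 0 (Nat.zero_le _) k).le) (hV i 0 (Nat.zero_le _))
  refine (measure_iUnion_fintype_le _ _).trans ?_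
  rw [ENNReal.ofReal_sum_of_nonneg fun i _ => by
    have : 0 ≤ ∑ s ∈ range (S i), ∑ k, max 0 (Real.log (b i (s + 1) k) - Real.log (b i s k)) :=
      sum_nonneg fun s _ => sum_nonneg fun k _ => le_max_left _ _
    have := hV0 i
    positivity]
  exact sum_le_sum fun i _ => volume_path (b i) (V i) (S i) (hb i) (hV i)

end Pool.Agent.Helper62.AS
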