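import Pool.Agent.Helper64.AS.Defs

/-!
# The sieve functions
-/

set_option autoImplicit false
set_option linter.dupNamespace false

open Finset MeasureTheory

namespace Pool.Agent.Helper62.AS.psi

open Pool.Agent.Helper64.AS

lemma jac_eq (p : ℕ) [Fact p.Prime] (l : ℤ) : jacobiSym l p = legendreSym p l :=
  (jacobiSym.legendreSym.to_jacobiSym p l).symm

lemma dvd_iff (p : ℕ) (l : ℤ) : (p : ℤ) ∣ l ↔ (l : ZMod p) = 0 :=
  (ZMod.intCast_zmod_eq_zero_iff_dvd l p).symm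

lemma psi1_sq (p : ℕ) (l : ℤ) (hp : p.Prime) : psi 1 p l ^ 2 = 1 := by
  have : Fact p.Prime := ⟨hp⟩
  unfold psi
  rw [jac_eq, one_mul]
  by_cases h : (p : ℤ) ∣ l
  · rw [if_pos h, (legendreSym.eq_zero_iff p l).mpr ((dvd_iff p l).mp h)]
    norm_num
  · rw [if_neg h, add_zero]
    have h1 := legendreSym.sq_one p (fun h2 => h ((dvd_iff p l).mpr h2))
    exact_mod_cast h1

lemma psi1_n2 (p : ℕ) (n : ℤ) (hp : p.Prime) : psi 1 p (n ^ 2) = 1 := by
  have : Fact p.Prime := ⟨hp⟩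
  unfold psi
  rw [jac_eq, one_mul]
  by_cases h : (p : ℤ) ∣ n
  · have h2 : (p : ℤ) ∣ n ^ 2 := dvd_pow h two_ne_zero
    rw [if_pos h2, (legendreSym.eq_zero_iff p _).mpr ((dvd_iff p _).mp h2)]
    norm_num
  · have h2 : ¬ (p : ℤ) ∣ n ^ 2 := fun h3 =>
      h ((Nat.prime_iff_prime_int.mp hp).dvd_of_dvd_pow h3)
    rw [if_neg h2, legendreSym.sq_one' p (fun h3 => h ((dvd_iff p n).mpr h3))]
    norm_num

lemma psi0_sq (p : ℕ) (l : ℤ) (hp : p.Prime) : psi 0 p l ^ 2 ≤ 1 := by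
  have : Fact p.Prime := ⟨hp⟩
  unfold psi
  rw [jac_eq, zero_mul, add_zero]
  by_cases h : (p : ℤ) ∣ l
  · rw [(legendreSym.eq_zero_iff p l).mpr ((dvd_iff p l).mp h)]
    norm_num
  · have h1 := legendreSym.sq_one p (fun h2 => h ((dvd_iff p l).mpr h2))
    have h2 : ((legendreSym p l : ℤ) : ℝ) ^ 2 = 1 := by exact_mod_cast h1
    exact h2.le

lemma psi0_n2 (p : ℕ) (n : ℤ) (hp : p.Prime) (h : ¬ (p : ℤ) ∣ n) : psi 0 p (n ^ 2) = 1 := by
  have : Fact p.Prime := ⟨hp⟩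
  unfold psi
  rw [jac_eq, zero_mul, add_zero, legendreSym.sq_one' p (fun h3 => h ((dvd_iff p n).mpr h3))]
  norm_num

lemma psi0_n2' (p : ℕ) (n : ℤ) (hp : p.Prime) (h : (p : ℤ) ∣ n) : psi 0 p (n ^ 2) = 0 := by
  have : Fact p.Prime := ⟨hp⟩
  unfold psi
  have h2 : (p : ℤ) ∣ n ^ 2 := dvd_pow h two_ne_zero
  rw [jac_eq, zero_mul, add_zero, (legendreSym.eq_zero_iff p _).mpr ((dvd_iff p _).mp h2)]
  norm_num

/-- The quadratic character with complex values. -/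
noncomputable def chi (p : ℕ) [Fact p.Prime] : MulChar (ZMod p) ℂ :=
  (quadraticChar (ZMod p)).ringHomComp (Int.castRingHom ℂ)

lemma chi_apply (p : ℕ) [Fact p.Prime] (l : ℤ) :
    chi p (l : ZMod p) = ((legendreSym p l : ℤ) : ℂ) := rfl

lemma chi_ne_one (p : ℕ) [Fact p.Prime] (h2 : p ≠ 2) : chi p ≠ 1 := by
  unfold chi
  rw [MulChar.ringHomComp_ne_one_iff (Int.cast_injective)]
  apply quadraticChar_ne_one
  rw [ZMod.ringChar_zmod_n]
  exact h2

lemma chi_quad (p : ℕ) [Fact p.Prime] : (chi p).IsQuadratic := by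
  unfold chi
  exact (quadraticChar_isQuadratic (ZMod p)).comp _

lemma norm_gauss (p : ℕ) [Fact p.Prime] (h2 : p ≠ 2) (ψ : AddChar (ZMod p) ℂ)
    (hψ : ψ.IsPrimitive) : ‖gaussSum (chi p) ψ‖ = Real.sqrt p := by
  have h := gaussSum_sq (chi_ne_one p h2) (chi_quad p) hψ
  have h3 : ‖gaussSum (chi p) ψ‖ ^ 2 = p := by
    rw [← norm_pow, h, norm_mul, ZMod.card]
    have h4 : ‖chi p (-1)‖ = 1 := by
      have h5 : (chi p (-1)) ^ 2 = 1 := by
        rw [← map_pow]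
        simp
      have h6 : ‖chi p (-1)‖ ^ 2 = 1 := by rw [← norm_pow, h5, norm_one]
      nlinarith [norm_nonneg (chi p (-1))]
    rw [h4, one_mul]
    simp
  rw [← h3, Real.sqrt_sq (norm_nonneg _)]

/-- The Fourier coefficients. -/
noncomputable def cf (ε : ℝ) (p : ℕ) [Fact p.Prime] (h : ℕ) : ℂ :=
  (p : ℂ)⁻¹ * ∑ y : ZMod p, (chi p y + ε * (if y = 0 then 1 else 0)) *
    ZMod.stdAddChar (-(h : ZMod p) * y)

lemma cf_eq (ε : ℝ) (p : ℕ) [Fact p.Prime] (h : ℕ) : cf ε p h =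
    (p : ℂ)⁻¹ * (∑ y : ZMod p, chi p y * ZMod.stdAddChar (-(h : ZMod p) * y) + ε) := by
  unfold cf
  congr 1
  have : ∀ y : ZMod p, (chi p y + (ε : ℂ) * (if y = 0 then 1 else 0)) *
      ZMod.stdAddChar (-(h : ZMod p) * y) = chi p y * ZMod.stdAddChar (-(h : ZMod p) * y) +
        if y = 0 then (ε : ℂ) else 0 := by
    intro y
    by_cases hy : y = 0
    · subst hy
      simp
    · simp [hy]
  rw [sum_congr rfl fun y _ => this y, sum_add_distrib, sum_ite_eq' univ (0 : ZMod p)]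
  simp

lemma cf_zero (ε : ℝ) (p : ℕ) [Fact p.Prime] (h2 : p ≠ 2) (hε : 0 ≤ ε) :
    ‖cf ε p 0‖ ≤ ε / p := by
  rw [cf_eq]
  have h1 : ∑ y : ZMod p, chi p y * ZMod.stdAddChar (-((0 : ℕ) : ZMod p) * y) = 0 := by
    simp only [Nat.cast_zero, neg_zero, zero_mul, AddChar.map_zero_eq_one, mul_one]
    exact MulChar.sum_eq_zero_of_ne_one (chi_ne_one p h2)
  rw [h1, zero_add, norm_mul, norm_inv, Complex.norm_natCast, Complex.norm_real,
    Real.norm_eq_abs, abs_of_nonneg hε, div_eq_inv_mul]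

lemma cf_ne (ε : ℝ) (p : ℕ) [Fact p.Prime] (h2 : p ≠ 2) (hε : 0 ≤ ε) (hε1 : ε ≤ 1) (h : ℕ)
    (h0 : 0 < h) (hp : h < p) : ‖cf ε p h‖ ≤ (1 + 1 / Real.sqrt p) / Real.sqrt p := by
  rw [cf_eq]
  have hpp : (0 : ℝ) < p := by exact_mod_cast (Fact.out : p.Prime).pos
  have hsq : 0 < Real.sqrt p := Real.sqrt_pos.mpr hpp
  have hne : (-(h : ZMod p)) ≠ 0 := by
    rw [neg_ne_zero]
    intro h3
    rw [ZMod.natCast_eq_zero_iff] at h3
    exact absurd (Nat.le_of_dvd h0 h3) (not_le.mpr hp)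
  have hprim : (ZMod.stdAddChar.mulShift (-(h : ZMod p)) : AddChar (ZMod p) ℂ).IsPrimitive := by
    apply AddChar.IsPrimitive.of_ne_one
    exact ZMod.isPrimitive_stdAddChar p hne
  have h1 : ∑ y : ZMod p, chi p y * ZMod.stdAddChar (-(h : ZMod p) * y) =
      gaussSum (chi p) (ZMod.stdAddChar.mulShift (-(h : ZMod p))) := rfl
  rw [h1, norm_mul, norm_inv, Complex.norm_natCast]
  have h3 : ‖gaussSum (chi p) (ZMod.stdAddChar.mulShift (-(h : ZMod p))) + (ε : ℂ)‖ ≤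
      Real.sqrt p + 1 := by
    refine (norm_add_le _ _).trans ?_
    rw [norm_gauss p h2 _ hprim, Complex.norm_real, Real.norm_eq_abs, abs_of_nonneg hε]
    linarith
  calc (p : ℝ)⁻¹ * ‖gaussSum (chi p) (ZMod.stdAddChar.mulShift (-(h : ZMod p))) + (ε : ℂ)‖ ≤
      (p : ℝ)⁻¹ * (Real.sqrt p + 1) := mul_le_mul_of_nonneg_left h3 (by positivity)
    _ = (1 + 1 / Real.sqrt p) / Real.sqrt p := by
      have h4 : Real.sqrt p * Real.sqrt p = p := Real.mul_self_sqrt hpp.le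
      have h5 : (p : ℝ)⁻¹ = (Real.sqrt p)⁻¹ * (Real.sqrt p)⁻¹ := by
        rw [← mul_inv, h4]
      rw [h5]
      field_simp

lemma ee_std (p : ℕ) [Fact p.Prime] (h : ℕ) (l : ℤ) :
    ee ((h : ℝ) * l / p) = ZMod.stdAddChar ((h : ZMod p) * (l : ZMod p)) := by
  have h1 : ((h : ZMod p) * (l : ZMod p)) = (((h : ℤ) * l : ℤ) : ZMod p) := by push_cast; ring
  rw [h1, ZMod.stdAddChar_coe]
  unfold ee
  congr 1
  push_cast
  ring

lemma expand (ε : ℝ) (p : ℕ) [Fact p.Prime] (l : ℤ) :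
    ((psi ε p l : ℝ) : ℂ) = ∑ h ∈ range p, cf ε p h * ee ((h : ℝ) * l / p) := by
  have hp0 : (p : ℂ) ≠ 0 := by exact_mod_cast (Fact.out : p.Prime).ne_zero
  -- sum over range p as a sum over ZMod p
  have hsum : ∑ h ∈ range p, cf ε p h * ee ((h : ℝ) * l / p) =
      ∑ x : ZMod p, ((p : ℂ)⁻¹ * ∑ y : ZMod p, (chi p y + ε * (if y = 0 then 1 else 0)) *
        ZMod.stdAddChar (-x * y)) * ZMod.stdAddChar (x * (l : ZMod p)) := by
    symm
    refine sum_bij' (fun x _ => x.val) (fun h _ => (h : ZMod p)) ?_ ?_ ?_ ?_ ?_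
    · intro x _
      exact mem_range.mpr (ZMod.val_lt x)
    · intro h _
      exact mem_univ _
    · intro x _
      exact ZMod.natCast_zmod_val x
    · intro h hh
      exact ZMod.val_cast_of_lt (mem_range.mp hh)
    · intro x _
      rw [ee_std, ZMod.natCast_zmod_val]
      unfold cf
      rw [ZMod.natCast_zmod_val]
  rw [hsum]
  have h1 : ∀ x : ZMod p, ((p : ℂ)⁻¹ * ∑ y : ZMod p,
      (chi p y + ε * (if y = 0 then 1 else 0)) * ZMod.stdAddChar (-x * y)) *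
      ZMod.stdAddChar (x * (l : ZMod p)) = ∑ y : ZMod p, (p : ℂ)⁻¹ *
      (chi p y + ε * (if y = 0 then 1 else 0)) * ZMod.stdAddChar (x * ((l : ZMod p) - y)) := by
    intro x
    rw [mul_assoc, sum_mul, mul_sum]
    refine sum_congr rfl fun y _ => ?_
    have : (ZMod.stdAddChar (x * ((l : ZMod p) - y)) : ℂ) =
        ZMod.stdAddChar (-x * y) * ZMod.stdAddChar (x * (l : ZMod p)) := by
      rw [← AddChar.map_add_eq_mul]
      congr 1
      ring
    rw [this]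
    ring
  rw [sum_congr rfl fun x _ => h1 x, sum_comm]
  have h2 : ∀ y : ZMod p, ∑ x : ZMod p, (p : ℂ)⁻¹ *
      (chi p y + ε * (if y = 0 then 1 else 0)) * ZMod.stdAddChar (x * ((l : ZMod p) - y)) =
      if (l : ZMod p) - y = 0 then (chi p y + ε * (if y = 0 then 1 else 0)) else 0 := by
    intro y
    rw [← mul_sum, AddChar.sum_mulShift _ (ZMod.isPrimitive_stdAddChar p)]
    by_cases h3 : (l : ZMod p) - y = 0
    · rw [if_pos h3, if_pos h3, ZMod.card, mul_comm, ← mul_assoc, mul_inv_cancel₀ hp0, one_mul]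
    · rw [if_neg h3, if_neg h3, Nat.cast_zero, mul_zero]
  rw [sum_congr rfl fun y _ => h2 y]
  have h3 : ∀ y : ZMod p, (if (l : ZMod p) - y = 0 then
      (chi p y + (ε : ℂ) * (if y = 0 then 1 else 0)) else 0) =
      if y = (l : ZMod p) then (chi p y + (ε : ℂ) * (if y = 0 then 1 else 0)) else 0 := by
    intro y
    by_cases h4 : y = (l : ZMod p)
    · rw [if_pos h4, if_pos (by rw [h4, sub_self])]
    · rw [if_neg h4, if_neg (fun h5 => h4 (sub_eq_zero.mp h5).symm)]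
  rw [sum_congr rfl fun y _ => h3 y, sum_ite_eq' univ (l : ZMod p), if_pos (mem_univ _)]
  unfold psi
  rw [jac_eq, chi_apply]
  by_cases h4 : (p : ℤ) ∣ l
  · rw [if_pos h4, if_pos ((dvd_iff p l).mp h4)]
    push_cast
    ring
  · rw [if_neg h4, if_neg (fun h5 => h4 ((dvd_iff p l).mpr h5))]
    push_cast
    ring

theorem psi : S_psi := by
  refine ⟨?_, fun p l hp => psi1_sq p l hp, fun p n hp => psi1_n2 p n hp,
    fun p l hp => psi0_sq p l hp, fun p n hp h => psi0_n2 p n hp h,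
    fun p n hp h => psi0_n2' p n hp h⟩
  intro p ε hp h2 hε
  have : Fact p.Prime := ⟨hp⟩
  have hε0 : 0 ≤ ε := by rcases hε with rfl | rfl <;> norm_num
  have hε1 : ε ≤ 1 := by rcases hε with rfl | rfl <;> norm_num
  exact ⟨cf ε p, expand ε p, cf_zero ε p h2 hε0,
    fun h h0 hh => cf_ne ε p h2 hε0 hε1 h h0 hh⟩

end Pool.Agent.Helper62.AS.psi
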